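import Pool.Agent.Work.TreeRAM.Core

/-!
# The clock

Every program `p` of the tree language can be run with a clock: there is a program `clk p` which
transforms `(x, n)` (the number `n` in unary) into `(y, n - t)` if `p` transforms `x` into `y` in
`t ≤ n` steps, and into `nil` if `p` needs more than `n` steps, in constant time per step of `p`.
Every construct first decrements the clock.
-/

set_option autoImplicit false

namespace Pool.Agent.TreeRAM

/-! ### The clocked programs -/

/-- `(x, n + 1)` to `(x, n)`, and `(x, (v, n))` to `(x, n)`. -/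
def dropP : Prog := .pair .fst (.seq .snd .snd)

/-- Clocked form of an elementary operation. -/
def clkBase (op : Prog) : Prog := .cond .snd (.pair (.seq .fst op) (.seq .snd .snd)) .nil

/-- Clocked composition. -/
def clkSeq (p q : Prog) : Prog := .cond .snd (.seq (.seq dropP p) (.cond .id q .nil)) .nil

/-- Clocked pair. -/
def clkPair (p q : Prog) : Prog :=
  .cond .snd (.seq (.pair .fst (.seq dropP p)) (.cond .snd
    (.seq (.pair (.seq .snd .fst) (.seq dropP q))
      (.cond .snd (.pair (.pair .fst (.seq .snd .fst)) (.seq .snd .snd)) .nil)) .nil)) .nil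

/-- Clocked case distinction. -/
def clkCond (b p q : Prog) : Prog :=
  .cond .snd (.seq (.pair .fst (.seq dropP b)) (.cond .snd
    (.cond (.seq .snd .fst) (.seq dropP p) (.seq dropP q)) .nil)) .nil

/-- Body of the clocked loop, state `(true, (x, n))`.  The new state is `(true, (y, m))` or
`(nil, result)`. -/
def clkBody (b p : Prog) : Prog :=
  .seq .snd (.cond .snd (.seq (.pair .fst (.seq dropP b)) (.cond .snd
    (.cond (.seq .snd .fst)
      (.seq (.seq dropP p) (.cond .id (.pair ttP .id) (.pair .nil .nil)))
      (.pair .nil dropP))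
    (.pair .nil .nil))) (.pair .nil .nil))

/-- Clocked loop. -/
def clkLoop (b p : Prog) : Prog :=
  .seq (.pair ttP .id) (.seq (.loop .fst (clkBody b p)) .snd)

/-- `p'` is a clocked form of `p`, with constant `C`. -/
def Clk (p p' : Prog) (C : ℕ) : Prop :=
  ∀ (K : Type) [Field K] (x y : D K) (t n : ℕ), Run p x y t →
    (t ≤ n → RunLe p' (.pair x (enc K n)) (.pair y (enc K (n - t))) (C * (t + 1))) ∧
    (n < t → RunLe p' (.pair x (enc K n)) .nil (C * (n + 1)))

section

variable {K : Type} [Field K]

theorem dropP_run (x v w : D K) : RunLe dropP (.pair x (.pair v w)) (.pair x w) 5 :=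
  (RunLe.fst _ _).pair ((RunLe.snd _ _).seq (RunLe.snd _ _))

end

theorem clkBase_spec {op : Prog}
    (h : ∀ (K : Type) [Field K] (x y : D K) (t : ℕ), Run op x y t → t = 1) :
    Clk op (clkBase op) 9 := by
  intro K _ x y t n hr
  obtain rfl : t = 1 := h K x y t hr
  constructor
  · intro hn
    obtain ⟨m, rfl⟩ : ∃ m, n = m + 1 := ⟨n - 1, by omega⟩
    have e : m + 1 - 1 = m := by omega
    rw [enc_succ, e]
    have h1 : RunLe op x y 1 := ⟨1, le_rfl, hr⟩
    exact (RunLe.cond_true (RunLe.snd _ _) (((RunLe.fst _ _).seq h1).pair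
      ((RunLe.snd _ _).seq (RunLe.snd _ _)))).mono (by omega)
  · intro hn
    obtain rfl : n = 0 := by omega
    exact (RunLe.cond_false (RunLe.snd _ _) (RunLe.nil _)).mono (by omega)

theorem clkSeq_spec {p q p' q' : Prog} {C C' : ℕ} (hp : Clk p p' C) (hq : Clk q q' C') :
    Clk (.seq p q) (clkSeq p' q') (C + C' + 20) := by
  intro K _ x z t n hr
  cases hr with
  | @seq _ _ _ y _ s t h1 h2 =>
  cases n with
  | zero =>
    refine ⟨fun h => by omega, fun _ => ?_⟩
    exact (RunLe.cond_false (RunLe.snd _ _) (RunLe.nil _)).mono (by omega)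
  | succ m =>
    obtain ⟨hp1, hp2⟩ := hp K x y s m h1
    rw [enc_succ]
    by_cases hs : m < s
    · refine ⟨fun h => by omega, fun _ => ?_⟩
      refine (RunLe.cond_true (RunLe.snd _ _) (((dropP_run _ _ _).seq (hp2 hs)).seq
        (RunLe.cond_false (RunLe.id _) (RunLe.nil _)))).mono ?_
      nlinarith [Nat.zero_le (C' * (m + 1 + 1)), Nat.zero_le m]
    · have hp3 := hp1 (by omega)
      obtain ⟨hq1, hq2⟩ := hq K y z t (m - s) h2
      constructor
      · intro h
        have e : m + 1 - (s + t + 1) = m - s - t := by omega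
        rw [e]
        refine (RunLe.cond_true (RunLe.snd _ _) (((dropP_run _ _ _).seq hp3).seq
          (RunLe.cond_true (RunLe.id _) (hq1 (by omega))))).mono ?_
        nlinarith [Nat.zero_le (C * t), Nat.zero_le (C' * s), Nat.zero_le t, Nat.zero_le s]
      · intro h
        refine (RunLe.cond_true (RunLe.snd _ _) (((dropP_run _ _ _).seq hp3).seq
          (RunLe.cond_true (RunLe.id _) (hq2 (by omega))))).mono ?_
        have e1 : C * (s + 1) ≤ C * (m + 1 + 1) := Nat.mul_le_mul_left _ (by omega)
        have e2 : C' * (m - s + 1) ≤ C' * (m + 1 + 1) := Nat.mul_le_mul_left _ (by omega)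
        nlinarith [Nat.zero_le m]

theorem clkPair_spec {p q p' q' : Prog} {C C' : ℕ} (hp : Clk p p' C) (hq : Clk q q' C') :
    Clk (.pair p q) (clkPair p' q') (C + C' + 40) := by
  intro K _ x yz t n hr
  cases hr with
  | @pair _ _ _ y z s t h1 h2 =>
  cases n with
  | zero =>
    refine ⟨fun h => by omega, fun _ => ?_⟩
    exact (RunLe.cond_false (RunLe.snd _ _) (RunLe.nil _)).mono (by omega)
  | succ m =>
    obtain ⟨hp1, hp2⟩ := hp K x y s m h1
    rw [enc_succ]
    by_cases hs : m < s
    · refine ⟨fun h => by omega, fun _ => ?_⟩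
      refine (RunLe.cond_true (RunLe.snd _ _) (((RunLe.fst _ _).pair
        ((dropP_run _ _ _).seq (hp2 hs))).seq
        (RunLe.cond_false (RunLe.snd _ _) (RunLe.nil _)))).mono ?_
      nlinarith [Nat.zero_le (C' * (m + 1 + 1)), Nat.zero_le m]
    · have hp3 := hp1 (by omega)
      obtain ⟨hq1, hq2⟩ := hq K x z t (m - s) h2
      constructor
      · intro h
        have e : m + 1 - (s + t + 1) = m - s - t := by omega
        rw [e]
        refine (RunLe.cond_true (RunLe.snd _ _) (((RunLe.fst _ _).pair
          ((dropP_run _ _ _).seq hp3)).seq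
          (RunLe.cond_true (RunLe.snd _ _) ((((RunLe.snd _ _).seq (RunLe.fst _ _)).pair
            ((dropP_run _ _ _).seq (hq1 (by omega)))).seq
            (RunLe.cond_true (RunLe.snd _ _) (((RunLe.fst _ _).pair
              ((RunLe.snd _ _).seq (RunLe.fst _ _))).pair
              ((RunLe.snd _ _).seq (RunLe.snd _ _)))))))).mono ?_
        nlinarith [Nat.zero_le (C * t), Nat.zero_le (C' * s), Nat.zero_le t, Nat.zero_le s]
      · intro h
        refine (RunLe.cond_true (RunLe.snd _ _) (((RunLe.fst _ _).pair
          ((dropP_run _ _ _).seq hp3)).seq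
          (RunLe.cond_true (RunLe.snd _ _) ((((RunLe.snd _ _).seq (RunLe.fst _ _)).pair
            ((dropP_run _ _ _).seq (hq2 (by omega)))).seq
            (RunLe.cond_false (RunLe.snd _ _) (RunLe.nil _)))))).mono ?_
        have e1 : C * (s + 1) ≤ C * (m + 1 + 1) := Nat.mul_le_mul_left _ (by omega)
        have e2 : C' * (m - s + 1) ≤ C' * (m + 1 + 1) := Nat.mul_le_mul_left _ (by omega)
        nlinarith [Nat.zero_le m]

theorem clkCond_spec {b p q b' p' q' : Prog} {B C C' : ℕ} (hb : Clk b b' B) (hp : Clk p p' C)
    (hq : Clk q q' C') : Clk (.cond b p q) (clkCond b' p' q') (B + C + C' + 40) := by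
  intro K _ x z t n hr
  cases hr with
  | @cond_true _ _ _ _ u v _ s t h1 h2 =>
    cases n with
    | zero =>
      refine ⟨fun h => by omega, fun _ => ?_⟩
      exact (RunLe.cond_false (RunLe.snd _ _) (RunLe.nil _)).mono (by omega)
    | succ m =>
      obtain ⟨hp1, hp2⟩ := hb K x _ s m h1
      rw [enc_succ]
      by_cases hs : m < s
      · refine ⟨fun h => by omega, fun _ => ?_⟩
        refine (RunLe.cond_true (RunLe.snd _ _) (((RunLe.fst _ _).pair
          ((dropP_run _ _ _).seq (hp2 hs))).seq
          (RunLe.cond_false (RunLe.snd _ _) (RunLe.nil _)))).mono ?_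
        nlinarith [Nat.zero_le (C' * (m + 1 + 1)), Nat.zero_le (C * (m + 1 + 1)), Nat.zero_le m]
      · have hp3 := hp1 (by omega)
        obtain ⟨hq1, hq2⟩ := hp K x z t (m - s) h2
        constructor
        · intro h
          have e : m + 1 - (s + t + 1) = m - s - t := by omega
          rw [e]
          refine (RunLe.cond_true (RunLe.snd _ _) (((RunLe.fst _ _).pair
            ((dropP_run _ _ _).seq hp3)).seq
            (RunLe.cond_true (RunLe.snd _ _) (RunLe.cond_true
              ((RunLe.snd _ _).seq (RunLe.fst _ _))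
              ((dropP_run _ _ _).seq (hq1 (by omega))))))).mono ?_
          nlinarith [Nat.zero_le (B * t), Nat.zero_le (C * s), Nat.zero_le t, Nat.zero_le s,
            Nat.zero_le (C' * (s + t + 1 + 1))]
        · intro h
          refine (RunLe.cond_true (RunLe.snd _ _) (((RunLe.fst _ _).pair
            ((dropP_run _ _ _).seq hp3)).seq
            (RunLe.cond_true (RunLe.snd _ _) (RunLe.cond_true
              ((RunLe.snd _ _).seq (RunLe.fst _ _))
              ((dropP_run _ _ _).seq (hq2 (by omega))))))).mono ?_
          have e1 : B * (s + 1) ≤ B * (m + 1 + 1) := Nat.mul_le_mul_left _ (by omega)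
          have e2 : C * (m - s + 1) ≤ C * (m + 1 + 1) := Nat.mul_le_mul_left _ (by omega)
          nlinarith [Nat.zero_le m, Nat.zero_le (C' * (m + 1 + 1))]
  | @cond_false _ _ _ _ _ s t h1 h2 =>
    cases n with
    | zero =>
      refine ⟨fun h => by omega, fun _ => ?_⟩
      exact (RunLe.cond_false (RunLe.snd _ _) (RunLe.nil _)).mono (by omega)
    | succ m =>
      obtain ⟨hp1, hp2⟩ := hb K x _ s m h1
      rw [enc_succ]
      by_cases hs : m < s
      · refine ⟨fun h => by omega, fun _ => ?_⟩
        refine (RunLe.cond_true (RunLe.snd _ _) (((RunLe.fst _ _).pair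
          ((dropP_run _ _ _).seq (hp2 hs))).seq
          (RunLe.cond_false (RunLe.snd _ _) (RunLe.nil _)))).mono ?_
        nlinarith [Nat.zero_le (C' * (m + 1 + 1)), Nat.zero_le (C * (m + 1 + 1)), Nat.zero_le m]
      · have hp3 := hp1 (by omega)
        obtain ⟨hq1, hq2⟩ := hq K x z t (m - s) h2
        constructor
        · intro h
          have e : m + 1 - (s + t + 1) = m - s - t := by omega
          rw [e]
          refine (RunLe.cond_true (RunLe.snd _ _) (((RunLe.fst _ _).pair
            ((dropP_run _ _ _).seq hp3)).seq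
            (RunLe.cond_true (RunLe.snd _ _) (RunLe.cond_false
              ((RunLe.snd _ _).seq (RunLe.fst _ _))
              ((dropP_run _ _ _).seq (hq1 (by omega))))))).mono ?_
          nlinarith [Nat.zero_le (B * t), Nat.zero_le (C' * s), Nat.zero_le t, Nat.zero_le s,
            Nat.zero_le (C * (s + t + 1 + 1))]
        · intro h
          refine (RunLe.cond_true (RunLe.snd _ _) (((RunLe.fst _ _).pair
            ((dropP_run _ _ _).seq hp3)).seq
            (RunLe.cond_true (RunLe.snd _ _) (RunLe.cond_false
              ((RunLe.snd _ _).seq (RunLe.fst _ _))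
              ((dropP_run _ _ _).seq (hq2 (by omega))))))).mono ?_
          have e1 : B * (s + 1) ≤ B * (m + 1 + 1) := Nat.mul_le_mul_left _ (by omega)
          have e2 : C' * (m - s + 1) ≤ C' * (m + 1 + 1) := Nat.mul_le_mul_left _ (by omega)
          nlinarith [Nat.zero_le m, Nat.zero_le (C * (m + 1 + 1))]

/-- The claim about the loop. -/
theorem clkLoop_aux {b p b' p' : Prog} {B C : ℕ} (hb : Clk b b' B) (hp : Clk p p' C)
    {K : Type} [Field K] {q : Prog} {x z : D K} {t : ℕ} (hr : Run q x z t)
    (hq : q = .loop b p) : ∀ n : ℕ,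
    (t ≤ n → LoopTo .fst (clkBody b' p') (.pair (.pair .nil .nil) (.pair x (enc K n)))
      (.pair .nil (.pair z (enc K (n - t)))) ((B + C + 60) * (t + 1))) ∧
    (n < t → LoopTo .fst (clkBody b' p') (.pair (.pair .nil .nil) (.pair x (enc K n)))
      (.pair .nil .nil) ((B + C + 60) * (n + 1))) := by
  induction hr with
  | id x => cases hq
  | nil x => cases hq
  | one x => cases hq
  | fst u v => cases hq
  | snd u v => cases hq
  | add a b => cases hq
  | sub a b => cases hq
  | mul a b => cases hq
  | inv a => cases hq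
  | isZero_true => cases hq
  | isZero_false a ha => cases hq
  | seq h1 h2 ih1 ih2 => cases hq
  | pair h1 h2 ih1 ih2 => cases hq
  | cond_true h1 h2 ih1 ih2 => cases hq
  | cond_false h1 h2 ih1 ih2 => cases hq
  | @loop_true _ _ x u v y z r s t h1 h2 h3 ih1 ih2 ih3 =>
    obtain ⟨rfl, rfl⟩ : _ = b ∧ _ = p := by
      injection hq with e1 e2
      exact ⟨e1, e2⟩
    intro n
    cases n with
    | zero =>
      refine ⟨fun h => by omega, fun _ => ?_⟩
      exact LoopTo.step (RunLe.fst _ _) ((RunLe.snd _ _).seq (RunLe.cond_false (RunLe.snd _ _)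
        ((RunLe.nil _).pair (RunLe.nil _)))) (.refl _ 0) (by omega)
    | succ m =>
      obtain ⟨hb1, hb2⟩ := hb K x _ r m h1
      rw [enc_succ]
      by_cases hs : m < r
      · refine ⟨fun h => by omega, fun _ => ?_⟩
        refine LoopTo.step (RunLe.fst _ _) ((RunLe.snd _ _).seq (RunLe.cond_true (RunLe.snd _ _)
          (((RunLe.fst _ _).pair ((dropP_run _ _ _).seq (hb2 hs))).seq
          (RunLe.cond_false (RunLe.snd _ _) ((RunLe.nil _).pair (RunLe.nil _)))))) (.refl _ 0) ?_
        nlinarith [Nat.zero_le (C * (m + 1 + 1)), Nat.zero_le m]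
      · have hb3 := hb1 (by omega)
        obtain ⟨hp1, hp2⟩ := hp K x y s (m - r) h2
        by_cases hs' : m - r < s
        · refine ⟨fun h => by omega, fun _ => ?_⟩
          refine LoopTo.step (RunLe.fst _ _) ((RunLe.snd _ _).seq (RunLe.cond_true (RunLe.snd _ _)
            (((RunLe.fst _ _).pair ((dropP_run _ _ _).seq hb3)).seq
            (RunLe.cond_true (RunLe.snd _ _) (RunLe.cond_true
              ((RunLe.snd _ _).seq (RunLe.fst _ _))
              (((dropP_run _ _ _).seq (hp2 hs')).seq
                (RunLe.cond_false (RunLe.id _) ((RunLe.nil _).pair (RunLe.nil _)))))))))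
            (.refl _ 0) ?_
          have e1 : B * (r + 1) ≤ B * (m + 1 + 1) := Nat.mul_le_mul_left _ (by omega)
          have e2 : C * (m - r + 1) ≤ C * (m + 1 + 1) := Nat.mul_le_mul_left _ (by omega)
          nlinarith [Nat.zero_le m]
        · have hp3 := hp1 (by omega)
          have st := (RunLe.snd (.pair .nil .nil : D K) (.pair x (.pair .nil (enc K m)))).seq
            (RunLe.cond_true (q := (.pair .nil .nil)) (RunLe.snd _ _)
            (((RunLe.fst _ _).pair ((dropP_run _ _ _).seq hb3)).seq
            (RunLe.cond_true (q := (.pair .nil .nil)) (RunLe.snd _ _) (RunLe.cond_true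
              (q := (.pair .nil dropP)) ((RunLe.snd _ _).seq (RunLe.fst _ _))
              (((dropP_run _ _ _).seq hp3).seq
                (RunLe.cond_true (q := (.pair .nil .nil)) (RunLe.id _)
                  ((ttP_run _).pair (RunLe.id _))))))))
          obtain ⟨ih1, ih2⟩ := ih3 rfl (m - r - s)
          constructor
          · intro h
            have e : m + 1 - (r + s + t + 1) = m - r - s - t := by omega
            rw [e]
            refine LoopTo.step (RunLe.fst _ _) st (ih1 (by omega)) ?_
            nlinarith [Nat.zero_le (B * (t + s)), Nat.zero_le (C * (t + r)), Nat.zero_le t,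
              Nat.zero_le s, Nat.zero_le r]
          · intro h
            refine LoopTo.step (RunLe.fst _ _) st (ih2 (by omega)) ?_
            obtain ⟨k, rfl⟩ : ∃ k, m = r + s + k := ⟨m - r - s, by omega⟩
            have e : r + s + k - r - s = k := by omega
            rw [e]
            nlinarith [Nat.zero_le (B * (k + s)), Nat.zero_le (C * (k + r)), Nat.zero_le k,
              Nat.zero_le s, Nat.zero_le r]
  | @loop_false _ _ x s h1 ih1 =>
    obtain ⟨rfl, rfl⟩ : _ = b ∧ _ = p := by
      injection hq with e1 e2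
      exact ⟨e1, e2⟩
    intro n
    cases n with
    | zero =>
      refine ⟨fun h => by omega, fun _ => ?_⟩
      exact LoopTo.step (RunLe.fst _ _) ((RunLe.snd _ _).seq (RunLe.cond_false (RunLe.snd _ _)
        ((RunLe.nil _).pair (RunLe.nil _)))) (.refl _ 0) (by omega)
    | succ m =>
      obtain ⟨hb1, hb2⟩ := hb K x _ s m h1
      rw [enc_succ]
      by_cases hs : m < s
      · refine ⟨fun h => by omega, fun _ => ?_⟩
        refine LoopTo.step (RunLe.fst _ _) ((RunLe.snd _ _).seq (RunLe.cond_true (RunLe.snd _ _)
          (((RunLe.fst _ _).pair ((dropP_run _ _ _).seq (hb2 hs))).seq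
          (RunLe.cond_false (RunLe.snd _ _) ((RunLe.nil _).pair (RunLe.nil _)))))) (.refl _ 0) ?_
        nlinarith [Nat.zero_le (C * (m + 1 + 1)), Nat.zero_le m]
      · refine ⟨fun _ => ?_, fun h => by omega⟩
        have e : m + 1 - (s + 1) = m - s := by omega
        rw [e]
        refine LoopTo.step (RunLe.fst _ _) ((RunLe.snd _ _).seq (RunLe.cond_true (RunLe.snd _ _)
          (((RunLe.fst _ _).pair ((dropP_run _ _ _).seq (hb1 (by omega)))).seq
          (RunLe.cond_true (RunLe.snd _ _) (RunLe.cond_false
            ((RunLe.snd _ _).seq (RunLe.fst _ _))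
            ((RunLe.nil _).pair (dropP_run _ _ _))))))) (.refl _ 0) ?_
        nlinarith [Nat.zero_le (C * (s + 1 + 1)), Nat.zero_le s]

theorem clkLoop_spec {b p b' p' : Prog} {B C : ℕ} (hb : Clk b b' B) (hp : Clk p p' C) :
    Clk (.loop b p) (clkLoop b' p') (B + C + 80) := by
  intro K _ x z t n hr
  obtain ⟨h1, h2⟩ := clkLoop_aux hb hp hr rfl n
  have st := (ttP_run (.pair x (enc K n))).pair (RunLe.id (.pair x (enc K n)))
  constructor
  · intro h
    refine (st.seq (((h1 h).runLe (RunLe.fst _ _)).seq (RunLe.snd _ _))).mono ?_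
    nlinarith [Nat.zero_le t]
  · intro h
    refine (st.seq (((h2 h).runLe (RunLe.fst _ _)).seq (RunLe.snd _ _))).mono ?_
    nlinarith [Nat.zero_le n]

/-- The clocked form of a program. -/
def clk : Prog → Prog
  | .seq p q => clkSeq (clk p) (clk q)
  | .pair p q => clkPair (clk p) (clk q)
  | .cond b p q => clkCond (clk b) (clk p) (clk q)
  | .loop b p => clkLoop (clk b) (clk p)
  | p => clkBase p

/-- The constant. -/
def clkK : Prog → ℕ
  | .seq p q => clkK p + clkK q + 20
  | .pair p q => clkK p + clkK q + 40
  | .cond b p q => clkK b + clkK p + clkK q + 40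
  | .loop b p => clkK b + clkK p + 80
  | _ => 9

theorem clk_spec (p : Prog) : Clk p (clk p) (clkK p) := by
  induction p with
  | id => exact clkBase_spec (fun K _ x y t h => by cases h; rfl)
  | nil => exact clkBase_spec (fun K _ x y t h => by cases h; rfl)
  | one => exact clkBase_spec (fun K _ x y t h => by cases h; rfl)
  | fst => exact clkBase_spec (fun K _ x y t h => by cases h; rfl)
  | snd => exact clkBase_spec (fun K _ x y t h => by cases h; rfl)
  | add => exact clkBase_spec (fun K _ x y t h => by cases h; rfl)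
  | sub => exact clkBase_spec (fun K _ x y t h => by cases h; rfl)
  | mul => exact clkBase_spec (fun K _ x y t h => by cases h; rfl)
  | inv => exact clkBase_spec (fun K _ x y t h => by cases h; rfl)
  | isZero => exact clkBase_spec (fun K _ x y t h => by cases h <;> rfl)
  | seq p q ihp ihq => exact clkSeq_spec ihp ihq
  | pair p q ihp ihq => exact clkPair_spec ihp ihq
  | cond b p q ihb ihp ihq => exact clkCond_spec ihb ihp ihq
  | loop b p ihb ihp => exact clkLoop_spec ihb ihp

/-- Every program can be run with a clock, in constant time per step: given `(x, n)` the clocked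
program returns `(y, n - t)` if `p` transforms `x` into `y` in `t ≤ n` steps, and `nil` if
`p` needs more than `n` steps. -/
theorem clock (p : Prog) : ∃ (p' : Prog) (C : ℕ), ∀ (K : Type) [Field K] (x y : D K) (t n : ℕ),
    Run p x y t →
    (t ≤ n → RunLe p' (.pair x (enc K n)) (.pair y (enc K (n - t))) (C * (t + 1))) ∧
    (n < t → RunLe p' (.pair x (enc K n)) .nil (C * (n + 1))) :=
  ⟨clk p, clkK p, fun K _ x y t n h => clk_spec p K x y t n h⟩

end Pool.Agent.TreeRAM
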