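import Pool.Agent.Work.TreeRAM.Data

/-!
# Functions on lists and numbers with their costs

Pattern: `foo_ex` proves that one code works for all fields, `fooCd` is that code, and the
instance `Comp.foo` is the compositional form used by instance search.
-/

set_option autoImplicit false

namespace Pool.Agent.TreeRAM

/-! ### append -/

theorem append_ex : ∃ c, ∀ (K : Type) [Field K] (α : Type) [Enc K α],
    Comp K (fun z : List α × List α => z.1 ++ z.2) c (fun z => z.1.length) :=
  ⟨_, fun K _ α _ => (Comp.rec1 (K := K) (isLeaf := fun z : List α × List α => z.1.isEmpty)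
    (leaf := fun z => z.2) (next := fun z => (z.1.tail, z.2))
    (join := fun z r => lcase z.1 r (fun b _ => b :: r)) (T := fun z => 2 * z.1.length)
    (fun z => z.1.length)
    (by rintro ⟨l, m⟩ h; cases l <;> simp_all)
    (by rintro ⟨l, m⟩ h; cases l <;> simp_all)
    (by rintro ⟨l, m⟩ h; cases l <;> simp_all)
    (by rintro ⟨l, m⟩ h; cases l <;> simp_all)
    (by rintro ⟨l, m⟩ h; cases l <;> simp_all; omega)).bigO 2 (fun z => by omega)⟩

noncomputable def appendCd : Cd := append_ex.choose

/-! ### reverse -/

theorem reverseAux_ex : ∃ c, ∀ (K : Type) [Field K] (α : Type) [Enc K α],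
    Comp K (fun z : List α × List α => z.1.reverseAux z.2) c (fun z => z.1.length) :=
  ⟨_, fun K _ α _ => (Comp.rec1 (K := K) (isLeaf := fun z : List α × List α => z.1.isEmpty)
    (leaf := fun z => z.2)
    (next := fun z => lcase z.1 z (fun b t => (t, b :: z.2)))
    (join := fun _ r => r) (T := fun z => 2 * z.1.length)
    (fun z => z.1.length)
    (by rintro ⟨l, m⟩ h; cases l <;> simp_all [List.reverseAux])
    (by rintro ⟨l, m⟩ h; cases l <;> simp_all [List.reverseAux])
    (by rintro ⟨l, m⟩ h; cases l <;> simp_all)
    (by rintro ⟨l, m⟩ h; cases l <;> simp_all)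
    (by rintro ⟨l, m⟩ h; cases l <;> simp_all; omega)).bigO 2 (fun z => by omega)⟩

theorem reverse_ex : ∃ c, ∀ (K : Type) [Field K] (α : Type) [Enc K α],
    Comp K (fun l : List α => l.reverse) c (fun l => l.length) := by
  obtain ⟨c, hc⟩ := reverseAux_ex
  exact ⟨_, fun K _ α _ => (((hc K α).app2 (f := fun l : List α => l) (f' := fun _ => [])
    Comp.id Comp.nilLit).congr (fun l => rfl)).mono (fun l => by simp)⟩

noncomputable def reverseCd : Cd := reverse_ex.choose

/-! ### length -/

theorem length_ex : ∃ c, ∀ (K : Type) [Field K] (α : Type) [Enc K α],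
    Comp K (fun l : List α => l.length) c (fun l => l.length) :=
  ⟨_, fun K _ α _ => (Comp.rec1 (K := K) (isLeaf := fun l : List α => l.isEmpty)
    (leaf := fun _ => 0) (next := fun l => l.tail)
    (join := fun _ r => r + 1) (T := fun z => 2 * z.length)
    (fun z => z.length)
    (by rintro l h; cases l <;> simp_all)
    (by rintro l h; cases l <;> simp_all)
    (by rintro l h; cases l <;> simp_all)
    (by rintro l h; cases l <;> simp_all)
    (by rintro l h; cases l <;> simp_all; omega)).bigO 2 (fun z => by omega)⟩

noncomputable def lengthCd : Cd := length_ex.choose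

/-! ### map -/

theorem map_ex : ∃ F : Cd → Cd, ∀ (cg : Cd) (K : Type) [Field K] (α β γ : Type) [Enc K α]
    [Enc K β] [Enc K γ] (g : α → β → γ) (Tg : α × β → ℕ),
    Comp K (fun z : α × β => g z.1 z.2) cg Tg →
    Comp K (fun z : α × List β => z.2.map (g z.1)) (F cg)
      (fun z => (z.2.map (fun b => Tg (z.1, b) + 1)).sum) :=
  ⟨fun _ => _, fun cg K _ α β γ _ _ _ g Tg hg => by
    have hg' : Comp K (fun z : (α × List β) × (β × List β) => g z.1.1 z.2.1)
        (cg.comp (Cd.pair Cd.id.fst.fst Cd.id.snd.fst)) (fun z => Tg (z.1.1, z.2.1)) :=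
      (hg.comp (f := fun z : (α × List β) × (β × List β) => (z.1.1, z.2.1)) Comp.pair).mono
        (fun z => by simp)
    have hj : Comp K (fun z : (α × List β) × List γ =>
        lcase z.1.2 z.2 (fun b _ => g z.1.1 b :: z.2)) _ _ :=
      Comp.lcase (l := fun z : (α × List β) × List γ => z.1.2) (f := fun z => z.2)
        (g := fun z b _ => g z.1.1 b :: z.2)
        (hg := Comp.cons (h := (hg.comp (f := fun z : ((α × List β) × List γ) × (β × List β) =>
          (z.1.1.1, z.2.1)) Comp.pair)))
    exact (Comp.rec1 (K := K) (isLeaf := fun z : α × List β => z.2.isEmpty)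
      (leaf := fun _ => []) (next := fun z => (z.1, z.2.tail))
      (join := fun z r => lcase z.2 r (fun b _ => g z.1 b :: r))
      (T := fun z => (z.2.map (fun b => Tg (z.1, b) + 2)).sum) (h3 := hj)
      (fun z => z.2.length)
      (by rintro ⟨a, l⟩ h; cases l <;> simp_all)
      (by rintro ⟨a, l⟩ h; cases l <;> simp_all)
      (by rintro ⟨a, l⟩ h; cases l <;> simp_all)
      (by rintro ⟨a, l⟩ h; cases l <;> simp_all)
      (by rintro ⟨a, l⟩ h; cases l <;> simp_all; omega)).bigO 2 (fun z => by
        obtain ⟨a, l⟩ := z
        induction l with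
        | nil => simp
        | cons b l ih =>
          simp only [List.map_cons, List.sum_cons] at ih ⊢
          omega)⟩

noncomputable def mapCd (c : Cd) : Cd := map_ex.choose c

section

variable {K : Type} [Field K] {α β γ δ : Type} [Enc K α] [Enc K β] [Enc K γ] [Enc K δ]

instance Comp.append {f g : α → List β} {c d : Cd} {T T' : α → ℕ} [h : Comp K f c T]
    [h' : Comp K g d T'] : Comp K (fun x => f x ++ g x) (appendCd.comp (c.pair d))
      (fun x => T x + T' x + (f x).length) := (append_ex.choose_spec K β).app2 h h'

instance Comp.reverse {f : α → List β} {c : Cd} {T : α → ℕ} [h : Comp K f c T] :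
    Comp K (fun x => (f x).reverse) (reverseCd.comp c) (fun x => T x + (f x).length) :=
  (reverse_ex.choose_spec K β).app1 h

instance Comp.length {f : α → List β} {c : Cd} {T : α → ℕ} [h : Comp K f c T] :
    Comp K (fun x => (f x).length) (lengthCd.comp c) (fun x => T x + (f x).length) :=
  (length_ex.choose_spec K β).app1 h

instance Comp.reverse_eta : Comp K (List.reverse : List β → List β) (reverseCd.comp Cd.id)
    (fun l => 0 + l.length) := Comp.reverse (f := fun x : List β => x)

instance Comp.length_eta : Comp K (List.length : List β → ℕ) (lengthCd.comp Cd.id)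
    (fun l => 0 + l.length) := Comp.length (f := fun x : List β => x)

instance Comp.map {l : α → List β} {g : α → β → γ} {c d : Cd} {T : α → ℕ} {Tg : α × β → ℕ}
    [h : Comp K l c T] [hg : Comp K (fun z : α × β => g z.1 z.2) d Tg] :
    Comp K (fun x => (l x).map (g x)) ((mapCd d).comp (Cd.id.pair c))
      (fun x => T x + ((l x).map (fun b => Tg (x, b) + 1)).sum) :=
  ((map_ex.choose_spec d K α β γ g Tg hg).app2 Comp.id h).mono (fun x => by simp)

example : ∃ c T, Comp K (fun x : List K × K => (x.1 ++ x.1).map (fun y => y + x.2)) c T :=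
  ⟨_, _, inferInstance⟩

end

end Pool.Agent.TreeRAM
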