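import Pool.Agent.Work.TreeRAM.List

/-!
# Arithmetic of natural numbers (in unary) with its costs

Pattern: `foo_ex` proves that one code works for all fields, `fooCd` is that code, and the
instance `Comp.foo` is the compositional form used by instance search.
-/

set_option autoImplicit false

namespace Pool.Agent.TreeRAM

/-! ### sum and difference -/

theorem addN_ex : ∃ c, ∀ (K : Type) [Field K],
    Comp K (fun z : ℕ × ℕ => z.1 + z.2) c (fun z => z.1) :=
  ⟨_, fun K _ => (Comp.rec1 (K := K) (isLeaf := fun z : ℕ × ℕ => decide (z.1 = 0))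
    (leaf := fun z => z.2) (next := fun z => (z.1 - 1, z.2))
    (join := fun _ r => r + 1) (T := fun z => 2 * z.1)
    (fun z => z.1)
    (by rintro ⟨l, m⟩ h; cases l <;> simp_all)
    (by rintro ⟨l, m⟩ h; cases l <;> simp_all; omega)
    (by rintro ⟨l, m⟩ h; cases l <;> simp_all)
    (by rintro ⟨l, m⟩ h; cases l <;> simp_all)
    (by rintro ⟨l, m⟩ h; cases l <;> simp_all; omega)).bigO 2 (fun z => by omega)⟩

noncomputable def addNCd : Cd := addN_ex.choose

theorem subN_ex : ∃ c, ∀ (K : Type) [Field K],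
    Comp K (fun z : ℕ × ℕ => z.1 - z.2) c (fun z => min z.1 z.2) :=
  ⟨_, fun K _ => (Comp.rec1 (K := K)
    (isLeaf := fun z : ℕ × ℕ => decide (z.1 = 0) || decide (z.2 = 0))
    (leaf := fun z => z.1) (next := fun z => (z.1 - 1, z.2 - 1))
    (join := fun _ r => r) (T := fun z => 2 * min z.1 z.2)
    (fun z => z.1)
    (by rintro ⟨l, m⟩ h; cases l <;> cases m <;> simp_all)
    (by rintro ⟨l, m⟩ h; cases l <;> cases m <;> simp_all)
    (by rintro ⟨l, m⟩ h; cases l <;> cases m <;> simp_all)
    (by rintro ⟨l, m⟩ h; cases l <;> cases m <;> simp_all)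
    (by rintro ⟨l, m⟩ h; cases l <;> cases m <;> simp_all; omega)).bigO 2 (fun z => by omega)⟩

noncomputable def subNCd : Cd := subN_ex.choose

theorem leN_ex : ∃ c, ∀ (K : Type) [Field K],
    Comp K (fun z : ℕ × ℕ => decide (z.1 ≤ z.2)) c (fun z => min z.1 z.2) :=
  ⟨_, fun K _ => (Comp.rec1 (K := K)
    (isLeaf := fun z : ℕ × ℕ => decide (z.1 = 0) || decide (z.2 = 0))
    (leaf := fun z => decide (z.1 = 0)) (next := fun z => (z.1 - 1, z.2 - 1))
    (join := fun _ r => r) (T := fun z => 2 * min z.1 z.2)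
    (fun z => z.1)
    (by rintro ⟨l, m⟩ h; cases l <;> cases m <;> simp_all)
    (by rintro ⟨l, m⟩ h; cases l <;> cases m <;> simp_all)
    (by rintro ⟨l, m⟩ h; cases l <;> cases m <;> simp_all)
    (by rintro ⟨l, m⟩ h; cases l <;> cases m <;> simp_all)
    (by rintro ⟨l, m⟩ h; cases l <;> cases m <;> simp_all; omega)).bigO 2 (fun z => by omega)⟩

noncomputable def leNCd : Cd := leN_ex.choose

theorem ltN_ex : ∃ c, ∀ (K : Type) [Field K],
    Comp K (fun z : ℕ × ℕ => decide (z.1 < z.2)) c (fun z => min z.1 z.2) :=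
  ⟨_, fun K _ => (Comp.rec1 (K := K)
    (isLeaf := fun z : ℕ × ℕ => decide (z.1 = 0) || decide (z.2 = 0))
    (leaf := fun z => !decide (z.2 = 0)) (next := fun z => (z.1 - 1, z.2 - 1))
    (join := fun _ r => r) (T := fun z => 2 * min z.1 z.2)
    (fun z => z.1)
    (by rintro ⟨l, m⟩ h; cases l <;> cases m <;> simp_all)
    (by rintro ⟨l, m⟩ h; cases l <;> cases m <;> simp_all)
    (by rintro ⟨l, m⟩ h; cases l <;> cases m <;> simp_all)
    (by rintro ⟨l, m⟩ h; cases l <;> cases m <;> simp_all)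
    (by rintro ⟨l, m⟩ h; cases l <;> cases m <;> simp_all; omega)).bigO 2 (fun z => by omega)⟩

noncomputable def ltNCd : Cd := ltN_ex.choose

theorem eqN_ex : ∃ c, ∀ (K : Type) [Field K],
    Comp K (fun z : ℕ × ℕ => decide (z.1 = z.2)) c (fun z => min z.1 z.2) :=
  ⟨_, fun K _ => (Comp.rec1 (K := K)
    (isLeaf := fun z : ℕ × ℕ => decide (z.1 = 0) || decide (z.2 = 0))
    (leaf := fun z => decide (z.1 = 0) && decide (z.2 = 0)) (next := fun z => (z.1 - 1, z.2 - 1))
    (join := fun _ r => r) (T := fun z => 2 * min z.1 z.2)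
    (fun z => z.1)
    (by rintro ⟨l, m⟩ h; cases l <;> cases m <;> simp_all)
    (by rintro ⟨l, m⟩ h; cases l <;> cases m <;> simp_all)
    (by rintro ⟨l, m⟩ h; cases l <;> cases m <;> simp_all)
    (by rintro ⟨l, m⟩ h; cases l <;> cases m <;> simp_all)
    (by rintro ⟨l, m⟩ h; cases l <;> cases m <;> simp_all; omega)).bigO 2 (fun z => by omega)⟩

noncomputable def eqNCd : Cd := eqN_ex.choose

theorem minN_ex : ∃ c, ∀ (K : Type) [Field K],
    Comp K (fun z : ℕ × ℕ => min z.1 z.2) c (fun z => min z.1 z.2) :=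
  ⟨_, fun K _ => (Comp.rec1 (K := K)
    (isLeaf := fun z : ℕ × ℕ => decide (z.1 = 0) || decide (z.2 = 0))
    (leaf := fun _ => 0) (next := fun z => (z.1 - 1, z.2 - 1))
    (join := fun _ r => r + 1) (T := fun z => 2 * min z.1 z.2)
    (fun z => z.1)
    (by rintro ⟨l, m⟩ h; cases l <;> cases m <;> simp_all)
    (by rintro ⟨l, m⟩ h; cases l <;> cases m <;> simp_all)
    (by rintro ⟨l, m⟩ h; cases l <;> cases m <;> simp_all)
    (by rintro ⟨l, m⟩ h; cases l <;> cases m <;> simp_all)
    (by rintro ⟨l, m⟩ h; cases l <;> cases m <;> simp_all; omega)).bigO 2 (fun z => by omega)⟩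

noncomputable def minNCd : Cd := minN_ex.choose

theorem maxN_ex : ∃ c, ∀ (K : Type) [Field K],
    Comp K (fun z : ℕ × ℕ => max z.1 z.2) c (fun z => min z.1 z.2) :=
  ⟨_, fun K _ => (Comp.rec1 (K := K)
    (isLeaf := fun z : ℕ × ℕ => decide (z.1 = 0) || decide (z.2 = 0))
    (leaf := fun z => bif decide (z.1 = 0) then z.2 else z.1)
    (next := fun z => (z.1 - 1, z.2 - 1))
    (join := fun _ r => r + 1) (T := fun z => 2 * min z.1 z.2)
    (fun z => z.1)
    (by rintro ⟨l, m⟩ h; cases l <;> cases m <;> simp_all)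
    (by rintro ⟨l, m⟩ h; cases l <;> cases m <;> simp_all)
    (by rintro ⟨l, m⟩ h; cases l <;> cases m <;> simp_all)
    (by rintro ⟨l, m⟩ h; cases l <;> cases m <;> simp_all)
    (by rintro ⟨l, m⟩ h; cases l <;> cases m <;> simp_all; omega)).bigO 2 (fun z => by omega)⟩

noncomputable def maxNCd : Cd := maxN_ex.choose

section

variable {K : Type} [Field K] {α : Type} [Enc K α] {m n : α → ℕ} {c d : Cd} {T T' : α → ℕ}

instance (priority := 800) Comp.addN [h : Comp K m c T] [h' : Comp K n d T'] :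
    Comp K (fun x => m x + n x) (addNCd.comp (c.pair d)) (fun x => T x + T' x + m x) :=
  (addN_ex.choose_spec K).app2 h h'

instance (priority := 800) Comp.subN [h : Comp K m c T] [h' : Comp K n d T'] :
    Comp K (fun x => m x - n x) (subNCd.comp (c.pair d))
      (fun x => T x + T' x + min (m x) (n x)) :=
  (subN_ex.choose_spec K).app2 h h'

instance (priority := 800) Comp.leN [h : Comp K m c T] [h' : Comp K n d T'] :
    Comp K (fun x => decide (m x ≤ n x)) (leNCd.comp (c.pair d))
      (fun x => T x + T' x + min (m x) (n x)) :=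
  (leN_ex.choose_spec K).app2 h h'

instance (priority := 800) Comp.ltN [h : Comp K m c T] [h' : Comp K n d T'] :
    Comp K (fun x => decide (m x < n x)) (ltNCd.comp (c.pair d))
      (fun x => T x + T' x + min (m x) (n x)) :=
  (ltN_ex.choose_spec K).app2 h h'

instance (priority := 800) Comp.eqN [h : Comp K m c T] [h' : Comp K n d T'] :
    Comp K (fun x => decide (m x = n x)) (eqNCd.comp (c.pair d))
      (fun x => T x + T' x + min (m x) (n x)) :=
  (eqN_ex.choose_spec K).app2 h h'

instance (priority := 800) Comp.minN [h : Comp K m c T] [h' : Comp K n d T'] :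
    Comp K (fun x => min (m x) (n x)) (minNCd.comp (c.pair d))
      (fun x => T x + T' x + min (m x) (n x)) :=
  (minN_ex.choose_spec K).app2 h h'

instance (priority := 800) Comp.maxN [h : Comp K m c T] [h' : Comp K n d T'] :
    Comp K (fun x => max (m x) (n x)) (maxNCd.comp (c.pair d))
      (fun x => T x + T' x + min (m x) (n x)) :=
  (maxN_ex.choose_spec K).app2 h h'

end

/-! ### product -/

theorem mulN_ex : ∃ c, ∀ (K : Type) [Field K],
    Comp K (fun z : ℕ × ℕ => z.1 * z.2) c (fun z => z.1 * (z.2 + 1)) :=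
  ⟨_, fun K _ => (Comp.rec1 (K := K) (isLeaf := fun z : ℕ × ℕ => decide (z.1 = 0))
    (leaf := fun _ => 0) (next := fun z => (z.1 - 1, z.2))
    (join := fun z r => z.2 + r) (T := fun z => z.1 * (z.2 + 2))
    (fun z => z.1)
    (by rintro ⟨l, m⟩ h; cases l <;> simp_all)
    (by
      rintro ⟨l, m⟩ h
      cases l
      · simp_all
      · simp only [Nat.add_sub_cancel]; ring)
    (by rintro ⟨l, m⟩ h; cases l <;> simp_all)
    (by rintro ⟨l, m⟩ h; cases l <;> simp_all)
    (by
      rintro ⟨l, m⟩ h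
      cases l
      · simp_all
      · simp only [Nat.add_sub_cancel, zero_add, add_zero]
        apply le_of_eq
        ring)).bigO 2
      (fun z => by nlinarith [Nat.zero_le (z.1 * z.2)])⟩

noncomputable def mulNCd : Cd := mulN_ex.choose

instance (priority := 800) Comp.mulN {K : Type} [Field K] {α : Type} [Enc K α] {m n : α → ℕ}
    {c d : Cd} {T T' : α → ℕ} [h : Comp K m c T] [h' : Comp K n d T'] :
    Comp K (fun x => m x * n x) (mulNCd.comp (c.pair d))
      (fun x => T x + T' x + m x * (n x + 1)) :=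
  (mulN_ex.choose_spec K).app2 h h'

/-! ### quotient and remainder -/

/-- quotient and remainder by repeated subtraction -/
theorem divmodN_ex : ∃ c, ∀ (K : Type) [Field K],
    Comp K (fun z : ℕ × ℕ => (z.1 / z.2, z.1 % z.2)) c (fun z => z.1) :=
  ⟨_, fun K _ => (Comp.rec1 (K := K)
    (isLeaf := fun z : ℕ × ℕ => decide (z.2 = 0) || decide (z.1 < z.2))
    (leaf := fun z => (0, z.1)) (next := fun z => (z.1 - z.2, z.2))
    (join := fun _ r => (r.1 + 1, r.2)) (T := fun z => 4 * z.1)
    (fun z => z.1)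
    (by
      rintro ⟨l, m⟩ h
      simp only [Bool.or_eq_true, decide_eq_true_eq] at h
      rcases h with rfl | h
      · simp
      · simp [Nat.div_eq_of_lt h, Nat.mod_eq_of_lt h])
    (by
      rintro ⟨l, m⟩ h
      simp only [Bool.or_eq_false_iff, decide_eq_false_iff_not, not_lt] at h
      have h2 : 0 < m := Nat.pos_of_ne_zero h.1
      simp only [Prod.mk.injEq]
      exact ⟨Nat.div_eq_sub_div h2 h.2, Nat.mod_eq_sub_mod h.2⟩)
    (by
      rintro ⟨l, m⟩ h
      simp only [Bool.or_eq_false_iff, decide_eq_false_iff_not, not_lt] at h ⊢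
      omega)
    (by
      rintro ⟨l, m⟩ h
      simp only
      omega)
    (by
      rintro ⟨l, m⟩ h
      simp only [Bool.or_eq_false_iff, decide_eq_false_iff_not, not_lt] at h ⊢
      omega)).bigO 4 (fun z => by omega)⟩

noncomputable def divmodNCd : Cd := divmodN_ex.choose

section

variable {K : Type} [Field K] {α : Type} [Enc K α] {m n : α → ℕ} {c d : Cd} {T T' : α → ℕ}

instance (priority := 800) Comp.divN [h : Comp K m c T] [h' : Comp K n d T'] :
    Comp K (fun x => m x / n x) (divmodNCd.comp (c.pair d)).fst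
      (fun x => T x + T' x + m x) :=
  Comp.fst (h := (divmodN_ex.choose_spec K).app2 h h')

instance (priority := 800) Comp.modN [h : Comp K m c T] [h' : Comp K n d T'] :
    Comp K (fun x => m x % n x) (divmodNCd.comp (c.pair d)).snd
      (fun x => T x + T' x + m x) :=
  Comp.snd (h := (divmodN_ex.choose_spec K).app2 h h')

end

/-! ### powers -/

theorem powN_ex (k : ℕ) : ∃ c, ∀ (K : Type) [Field K],
    Comp K (fun n : ℕ => n ^ k) c (fun n => (n + 1) ^ k) := by
  induction k with
  | zero => exact ⟨_, fun K _ => ((Comp.natLit 1).congr (fun n => by simp)).mono (fun n => by simp)⟩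
  | succ k ih =>
    obtain ⟨c, hc⟩ := ih
    exact ⟨_, fun K _ => ((Comp.mulN (h := hc K) (h' := Comp.id)).congr
      (fun n => (pow_succ n k).symm)).bigO 2 (fun n => by
        have h1 : n ^ k ≤ (n + 1) ^ k := Nat.pow_le_pow_left (by omega) k
        have h2 : (n + 1) ^ (k + 1) = (n + 1) ^ k * (n + 1) := pow_succ _ _
        have h3 : (n + 1) ^ k ≤ (n + 1) ^ k * (n + 1) := Nat.le_mul_of_pos_right _ (by omega)
        have h4 : n ^ k * (n + 1) ≤ (n + 1) ^ k * (n + 1) := Nat.mul_le_mul_right _ h1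
        omega)⟩

noncomputable def powNCd (k : ℕ) : Cd := (powN_ex k).choose

instance (priority := 800) Comp.powN {K : Type} [Field K] {α : Type} [Enc K α] {m : α → ℕ}
    {c : Cd} {T : α → ℕ} [h : Comp K m c T] (k : ℕ) :
    Comp K (fun x => m x ^ k) ((powNCd k).comp c) (fun x => T x + (m x + 1) ^ k) :=
  ((powN_ex k).choose_spec K).app1 h

theorem twoPow_ex : ∃ c, ∀ (K : Type) [Field K],
    Comp K (fun n : ℕ => 2 ^ n) c (fun n => 2 ^ n) :=
  ⟨_, fun K _ => (Comp.rec1 (K := K) (isLeaf := fun n : ℕ => decide (n = 0))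
    (leaf := fun _ => 1) (next := fun n => n - 1)
    (join := fun _ r => r + r) (T := fun n => 3 * 2 ^ n)
    (fun n => n)
    (by rintro n h; cases n <;> simp_all)
    (by
      rintro n h
      cases n
      · simp_all
      · simp only [Nat.add_sub_cancel]; ring)
    (by rintro n h; cases n <;> simp_all)
    (by rintro n h; cases n <;> simp_all)
    (by
      rintro n h
      cases n with
      | zero => simp_all
      | succ n =>
        simp only [Nat.add_sub_cancel, zero_add, add_zero]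
        have : 1 ≤ 2 ^ n := Nat.one_le_two_pow
        have : 2 ^ (n + 1) = 2 * 2 ^ n := by ring
        omega)).bigO 3 (fun z => by omega)⟩

noncomputable def twoPowCd : Cd := twoPow_ex.choose

instance (priority := 850) Comp.twoPow {K : Type} [Field K] {α : Type} [Enc K α] {m : α → ℕ}
    {c : Cd} {T : α → ℕ} [h : Comp K m c T] :
    Comp K (fun x => 2 ^ m x) (twoPowCd.comp c) (fun x => T x + 2 ^ m x) :=
  (twoPow_ex.choose_spec K).app1 h

instance (priority := 800) Comp.twoPow_eta {K : Type} [Field K] :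
    Comp K (HPow.hPow 2 : ℕ → ℕ) (twoPowCd.comp Cd.id) (fun x => 0 + 2 ^ x) :=
  Comp.twoPow (m := fun x : ℕ => x)

/-! ### logarithm -/

theorem clog_ex : ∃ c, ∀ (K : Type) [Field K],
    Comp K (fun n : ℕ => Nat.clog 2 n) c (fun n => n) :=
  ⟨_, fun K _ => (Comp.rec1 (K := K) (isLeaf := fun n : ℕ => decide (n ≤ 1))
    (leaf := fun _ => 0) (next := fun n => (n + 1) / 2)
    (join := fun _ r => r + 1) (T := fun n => 14 * n)
    (fun n => n)
    (by
      rintro n h
      simp only [decide_eq_true_eq] at h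
      exact Nat.clog_of_right_le_one h 2)
    (by
      rintro n h
      simp only [decide_eq_false_iff_not, not_le] at h
      exact Nat.clog_of_two_le (by norm_num) h)
    (by
      rintro n h
      simp only [decide_eq_false_iff_not, not_le] at h ⊢
      omega)
    (by
      rintro n h
      simp only [decide_eq_true_eq] at h ⊢
      omega)
    (by
      rintro n h
      simp only [decide_eq_false_iff_not, not_le] at h ⊢
      omega)).bigO 14 (fun z => by omega)⟩

noncomputable def clogCd : Cd := clog_ex.choose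

instance (priority := 800) Comp.clog {K : Type} [Field K] {α : Type} [Enc K α] {m : α → ℕ}
    {c : Cd} {T : α → ℕ} [h : Comp K m c T] :
    Comp K (fun x => Nat.clog 2 (m x)) (clogCd.comp c) (fun x => T x + m x) :=
  (clog_ex.choose_spec K).app1 h

instance (priority := 800) Comp.clog_eta {K : Type} [Field K] :
    Comp K (Nat.clog 2) (clogCd.comp Cd.id) (fun x => 0 + x) :=
  Comp.clog (m := fun x : ℕ => x)

/-! ### roots -/

/-- the least `u` with `n ≤ u ^ k` -/
noncomputable def nroot (k n : ℕ) : ℕ := sInf {u : ℕ | n ≤ u ^ k}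

theorem nroot_mem {k : ℕ} (hk : 0 < k) (n : ℕ) : n ∈ {u : ℕ | n ≤ u ^ k} :=
  Nat.le_self_pow hk.ne' n

theorem nroot_spec {k : ℕ} (hk : 0 < k) (n : ℕ) : n ≤ nroot k n ^ k :=
  Nat.sInf_mem (s := {u : ℕ | n ≤ u ^ k}) ⟨n, nroot_mem hk n⟩

theorem nroot_le_of {k n u : ℕ} (h : n ≤ u ^ k) : nroot k n ≤ u := Nat.sInf_le h

theorem nroot_lt {k : ℕ} (_hk : 0 < k) {n u : ℕ} (hu : u < nroot k n) : u ^ k < n := by
  by_contra h
  exact absurd (nroot_le_of (not_lt.1 h)) (not_le.2 hu)

theorem nroot_le {k : ℕ} (hk : 0 < k) (n : ℕ) : nroot k n ≤ n := nroot_le_of (nroot_mem hk n)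

theorem nroot_pos {k n : ℕ} (hk : 0 < k) (hn : 0 < n) : 0 < nroot k n := by
  by_contra h
  have h1 := nroot_spec hk n
  have h2 : nroot k n = 0 := by omega
  rw [h2, zero_pow hk.ne'] at h1
  omega

theorem nroot_le_iff {k : ℕ} (hk : 0 < k) {n u : ℕ} : nroot k n ≤ u ↔ n ≤ u ^ k :=
  ⟨fun h => (nroot_spec hk n).trans (Nat.pow_le_pow_left h k), nroot_le_of⟩

/-- `u ^ k` for a constant `k` is at most a constant times `n` for the `k`-th root -/
theorem nroot_pow_le {k : ℕ} (hk : 0 < k) {n : ℕ} (hn : 0 < n) : nroot k n ^ k ≤ 2 ^ k * n := by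
  have h0 := nroot_pos hk hn
  by_cases h1 : nroot k n = 1
  · rw [h1, one_pow]
    have : 1 ≤ 2 ^ k := Nat.one_le_two_pow
    nlinarith
  · have h2 : nroot k n ≤ 2 * (nroot k n - 1) := by omega
    have h3 : (nroot k n - 1) ^ k < n := nroot_lt hk (by omega)
    calc nroot k n ^ k ≤ (2 * (nroot k n - 1)) ^ k := Nat.pow_le_pow_left h2 k
      _ = 2 ^ k * (nroot k n - 1) ^ k := mul_pow _ _ _
      _ ≤ 2 ^ k * n := Nat.mul_le_mul_left _ h3.le

theorem nroot_ex (k : ℕ) (hk : 0 < k) : ∃ c, ∀ (K : Type) [Field K],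
    Comp K (fun n : ℕ => nroot k n) c (fun n => (n + 1) * (nroot k n + 1)) := by
  have main : ∃ c, ∀ (K : Type) [Field K], Comp K (fun z : ℕ × ℕ => max (nroot k z.1) z.2) c
      (fun z => ∑ v ∈ Finset.Icc z.2 (max (nroot k z.1) z.2), ((v + 1) ^ k + z.1 + 2)) :=
    ⟨_, fun K _ => Comp.rec1 (K := K) (isLeaf := fun z : ℕ × ℕ => decide (z.1 ≤ z.2 ^ k))
      (leaf := fun z => z.2) (next := fun z => (z.1, z.2 + 1))
      (join := fun _ r => r)
      (T := fun z => ∑ v ∈ Finset.Icc z.2 (max (nroot k z.1) z.2), ((v + 1) ^ k + z.1 + 2))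
      (fun z => nroot k z.1 - z.2)
      (by
        rintro ⟨n, u⟩ h
        simp only [decide_eq_true_eq, ← nroot_le_iff hk] at h ⊢
        omega)
      (by
        rintro ⟨n, u⟩ h
        simp only [decide_eq_false_iff_not, ← nroot_le_iff hk, not_le] at h ⊢
        omega)
      (by
        rintro ⟨n, u⟩ h
        simp only [decide_eq_false_iff_not, ← nroot_le_iff hk, not_le] at h ⊢
        omega)
      (by
        rintro ⟨n, u⟩ h
        simp only [decide_eq_true_eq, ← nroot_le_iff hk] at h ⊢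
        rw [max_eq_right h, Finset.Icc_self, Finset.sum_singleton]
        omega)
      (by
        rintro ⟨n, u⟩ h
        simp only [decide_eq_false_iff_not, ← nroot_le_iff hk, not_le] at h ⊢
        rw [max_eq_left (show u ≤ nroot k n by omega),
          max_eq_left (show u + 1 ≤ nroot k n by omega)]
        have : Finset.Icc u (nroot k n) = insert u (Finset.Icc (u + 1) (nroot k n)) := by
          ext v
          simp only [Finset.mem_insert, Finset.mem_Icc]
          omega
        rw [this, Finset.sum_insert (by simp)]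
        omega)⟩
  obtain ⟨c, hc⟩ := main
  exact ⟨_, fun K _ => (((hc K).app2 (f := fun n : ℕ => n) (f' := fun _ => 0) Comp.id
    (Comp.natLit 0)).congr (fun n => by simp)).bigO (4 ^ k + 4) (fun n => by
      simp only [Nat.zero_le, max_eq_left, zero_add]
      have h1 : (nroot k n + 1) ^ k ≤ 4 ^ k * (n + 1) := by
        rcases Nat.eq_zero_or_pos n with rfl | hn
        · have : nroot k 0 = 0 := by have := nroot_le hk 0; omega
          rw [this]
          simp
          exact Nat.one_le_pow _ _ (by norm_num)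
        · have h0 := nroot_pos hk hn
          calc (nroot k n + 1) ^ k ≤ (2 * nroot k n) ^ k := Nat.pow_le_pow_left (by omega) k
            _ = 2 ^ k * nroot k n ^ k := mul_pow _ _ _
            _ ≤ 2 ^ k * (2 ^ k * n) := Nat.mul_le_mul_left _ (nroot_pow_le hk hn)
            _ = 4 ^ k * n := by rw [← mul_assoc, ← mul_pow]; norm_num
            _ ≤ 4 ^ k * (n + 1) := Nat.mul_le_mul_left _ (by omega)
      have h2 : ∑ v ∈ Finset.Icc 0 (nroot k n), ((v + 1) ^ k + n + 2) ≤
          (nroot k n + 1) * (4 ^ k * (n + 1) + n + 2) := by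
        refine (Finset.sum_le_card_nsmul _ _ (4 ^ k * (n + 1) + n + 2) (fun v hv => ?_)).trans
          (le_of_eq ?_)
        · rw [Finset.mem_Icc] at hv
          have : (v + 1) ^ k ≤ (nroot k n + 1) ^ k := Nat.pow_le_pow_left (by omega) k
          omega
        · simp
      have h3 : (nroot k n + 1) * (4 ^ k * (n + 1) + n + 2) ≤
          (4 ^ k + 2) * ((n + 1) * (nroot k n + 1)) := by
        nlinarith [Nat.zero_le (n * nroot k n)]
      have h4 : (4 ^ k + 4) * ((n + 1) * (nroot k n + 1) + 1) =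
          (4 ^ k + 2) * ((n + 1) * (nroot k n + 1)) + 2 * ((n + 1) * (nroot k n + 1)) +
            4 ^ k + 4 := by ring
      have h5 := Nat.add_le_add_right (h2.trans h3) 1
      refine h5.trans ?_
      rw [h4]
      nlinarith [Nat.zero_le (4 ^ k), Nat.zero_le ((n + 1) * (nroot k n + 1))])⟩

noncomputable def nrootCd (k : ℕ) (hk : 0 < k) : Cd := (nroot_ex k hk).choose

theorem Comp.nroot {K : Type} [Field K] {α : Type} [Enc K α] {m : α → ℕ}
    {c : Cd} {T : α → ℕ} [h : Comp K m c T] {k : ℕ} (hk : 0 < k) :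
    Comp K (fun x => TreeRAM.nroot k (m x)) ((nrootCd k hk).comp c)
      (fun x => T x + (m x + 1) * (TreeRAM.nroot k (m x) + 1)) :=
  ((nroot_ex k hk).choose_spec K).app1 h

instance Comp.nroot' {K : Type} [Field K] {α : Type} [Enc K α] {m : α → ℕ}
    {c : Cd} {T : α → ℕ} [h : Comp K m c T] {k : ℕ} [hk : NeZero k] :
    Comp K (fun x => TreeRAM.nroot k (m x)) ((nrootCd k (NeZero.pos k)).comp c)
      (fun x => T x + (m x + 1) * (TreeRAM.nroot k (m x) + 1)) := Comp.nroot _

instance Comp.nroot_eta {K : Type} [Field K] {k : ℕ} [hk : NeZero k] :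
    Comp K (TreeRAM.nroot k) ((nrootCd k (NeZero.pos k)).comp Cd.id)
      (fun x => 0 + (x + 1) * (TreeRAM.nroot k x + 1)) := Comp.nroot' (m := fun x : ℕ => x)

/-! ### iteration -/

/-- iteration of a function -/
def iterCost {α : Type} (g : α → α) (Tg : α → ℕ) : ℕ → α → ℕ
  | 0, _ => 0
  | n + 1, a => Tg a + 1 + iterCost g Tg n (g a)

theorem iterate_ex : ∃ F : Cd → Cd, ∀ (cg : Cd) (K : Type) [Field K] (α γ : Type) [Enc K α]
    [Enc K γ] (g : γ → α → α) (Tg : γ × α → ℕ),
    Comp K (fun z : γ × α => g z.1 z.2) cg Tg →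
    Comp K (fun z : γ × ℕ × α => (g z.1)^[z.2.1] z.2.2) (F cg)
      (fun z => iterCost (g z.1) (fun a => Tg (z.1, a)) z.2.1 z.2.2) :=
  ⟨fun _ => _, fun cg K _ α γ _ _ g Tg hg => by
    have hn : Comp K (fun z : γ × ℕ × α => (z.1, (z.2.1 - 1, g z.1 z.2.2))) _ _ :=
      Comp.pair (h' := Comp.pair (h' := hg.comp (f := fun z : γ × ℕ × α => (z.1, z.2.2))
        Comp.pair))
    exact (Comp.rec1 (K := K) (isLeaf := fun z : γ × ℕ × α => decide (z.2.1 = 0))
      (leaf := fun z => z.2.2) (next := fun z => (z.1, (z.2.1 - 1, g z.1 z.2.2)))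
      (join := fun _ r => r)
      (T := fun z => 2 * iterCost (g z.1) (fun a => Tg (z.1, a)) z.2.1 z.2.2) (h2 := hn)
      (fun z => z.2.1)
      (by rintro ⟨a, n, l⟩ h; cases n <;> simp_all)
      (by rintro ⟨a, n, l⟩ h; cases n <;> simp_all)
      (by rintro ⟨a, n, l⟩ h; cases n <;> simp_all)
      (by rintro ⟨a, n, l⟩ h; cases n <;> simp_all)
      (by rintro ⟨a, n, l⟩ h; cases n <;> simp_all [iterCost]; omega)).bigO 2 (fun z => by
        omega)⟩

noncomputable def iterateCd (c : Cd) : Cd := iterate_ex.choose c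

instance Comp.iterate {K : Type} [Field K] {α γ : Type} [Enc K α] [Enc K γ] {g : γ → α → α}
    {n : γ → ℕ} {a : γ → α} {cg cn ca : Cd} {Tg : γ × α → ℕ} {Tn Ta : γ → ℕ}
    [hg : Comp K (fun z : γ × α => g z.1 z.2) cg Tg] [hn : Comp K n cn Tn] [ha : Comp K a ca Ta] :
    Comp K (fun x => (g x)^[n x] (a x)) ((iterateCd cg).comp (Cd.id.pair (cn.pair ca)))
      (fun x => Tn x + Ta x + iterCost (g x) (fun a => Tg (x, a)) (n x) (a x)) :=
  ((iterate_ex.choose_spec cg K α γ g Tg hg).app2 (f' := fun x => (n x, a x)) Comp.id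
    Comp.pair).mono (fun x => by simp)

end Pool.Agent.TreeRAM
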