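import Pool.Agent.Work.TreeRAM.List

/-!
# More functions on lists with their costs
-/

set_option autoImplicit false

namespace Pool.Agent.TreeRAM

/-! ### take, drop, replicate, range, getD -/

theorem take_ex : ∃ c, ∀ (K : Type) [Field K] (α : Type) [Enc K α],
    Comp K (fun z : ℕ × List α => z.2.take z.1) c (fun z => z.1) :=
  ⟨_, fun K _ α _ => (Comp.rec1 (K := K)
    (isLeaf := fun z : ℕ × List α => decide (z.1 = 0) || z.2.isEmpty)
    (leaf := fun _ => []) (next := fun z => (z.1 - 1, z.2.tail))
    (join := fun z r => lcase z.2 r (fun b _ => b :: r)) (T := fun z => 2 * z.1)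
    (fun z => z.1)
    (by rintro ⟨n, l⟩ h; cases l <;> cases n <;> simp_all)
    (by rintro ⟨n, l⟩ h; cases l <;> cases n <;> simp_all)
    (by rintro ⟨n, l⟩ h; cases l <;> cases n <;> simp_all)
    (by rintro ⟨n, l⟩ h; cases l <;> cases n <;> simp_all)
    (by rintro ⟨n, l⟩ h; cases l <;> cases n <;> simp_all; omega)).bigO 2 (fun z => by omega)⟩

noncomputable def takeCd : Cd := take_ex.choose

theorem drop_ex : ∃ c, ∀ (K : Type) [Field K] (α : Type) [Enc K α],
    Comp K (fun z : ℕ × List α => z.2.drop z.1) c (fun z => z.1) :=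
  ⟨_, fun K _ α _ => (Comp.rec1 (K := K)
    (isLeaf := fun z : ℕ × List α => decide (z.1 = 0) || z.2.isEmpty)
    (leaf := fun z => z.2) (next := fun z => (z.1 - 1, z.2.tail))
    (join := fun _ r => r) (T := fun z => 2 * z.1)
    (fun z => z.1)
    (by rintro ⟨n, l⟩ h; cases l <;> cases n <;> simp_all)
    (by rintro ⟨n, l⟩ h; cases l <;> cases n <;> simp_all)
    (by rintro ⟨n, l⟩ h; cases l <;> cases n <;> simp_all)
    (by rintro ⟨n, l⟩ h; cases l <;> cases n <;> simp_all)
    (by rintro ⟨n, l⟩ h; cases l <;> cases n <;> simp_all; omega)).bigO 2 (fun z => by omega)⟩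

noncomputable def dropCd : Cd := drop_ex.choose

theorem replicate_ex : ∃ c, ∀ (K : Type) [Field K] (α : Type) [Enc K α],
    Comp K (fun z : ℕ × α => List.replicate z.1 z.2) c (fun z => z.1) :=
  ⟨_, fun K _ α _ => (Comp.rec1 (K := K)
    (isLeaf := fun z : ℕ × α => decide (z.1 = 0))
    (leaf := fun _ => []) (next := fun z => (z.1 - 1, z.2))
    (join := fun z r => z.2 :: r) (T := fun z => 2 * z.1)
    (fun z => z.1)
    (by rintro ⟨n, l⟩ h; cases n <;> simp_all)
    (by rintro ⟨n, l⟩ h; cases n <;> simp_all [List.replicate_succ])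
    (by rintro ⟨n, l⟩ h; cases n <;> simp_all)
    (by rintro ⟨n, l⟩ h; cases n <;> simp_all)
    (by rintro ⟨n, l⟩ h; cases n <;> simp_all; omega)).bigO 2 (fun z => by omega)⟩

noncomputable def replicateCd : Cd := replicate_ex.choose

theorem range'_ex : ∃ c, ∀ (K : Type) [Field K],
    Comp K (fun z : ℕ × ℕ => List.range' z.1 z.2) c (fun z => z.2) :=
  ⟨_, fun K _ => (Comp.rec1 (K := K)
    (isLeaf := fun z : ℕ × ℕ => decide (z.2 = 0))
    (leaf := fun _ => []) (next := fun z => (z.1 + 1, z.2 - 1))
    (join := fun z r => z.1 :: r) (T := fun z => 2 * z.2)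
    (fun z => z.2)
    (by rintro ⟨n, l⟩ h; cases l <;> simp_all)
    (by rintro ⟨n, l⟩ h; cases l <;> simp_all [List.range'_succ])
    (by rintro ⟨n, l⟩ h; cases l <;> simp_all)
    (by rintro ⟨n, l⟩ h; cases l <;> simp_all)
    (by rintro ⟨n, l⟩ h; cases l <;> simp_all; omega)).bigO 2 (fun z => by omega)⟩

theorem range_ex : ∃ c, ∀ (K : Type) [Field K],
    Comp K (fun n : ℕ => List.range n) c (fun n => n) := by
  obtain ⟨c, hc⟩ := range'_ex
  exact ⟨_, fun K _ => (((hc K).app2 (f := fun _ : ℕ => 0) (f' := fun n => n)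
    (Comp.natLit 0) Comp.id).congr (fun l => List.range_eq_range'.symm)).mono
      (fun l => by simp)⟩

noncomputable def rangeCd : Cd := range_ex.choose

theorem getD_ex : ∃ c, ∀ (K : Type) [Field K] (α : Type) [Enc K α],
    Comp K (fun z : List α × ℕ × α => z.1.getD z.2.1 z.2.2) c (fun z => z.2.1) :=
  ⟨_, fun K _ α _ => (Comp.rec1 (K := K)
    (isLeaf := fun z : List α × ℕ × α => decide (z.2.1 = 0) || z.1.isEmpty)
    (leaf := fun z => z.1.headD z.2.2) (next := fun z => (z.1.tail, z.2.1 - 1, z.2.2))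
    (join := fun _ r => r) (T := fun z => 2 * z.2.1)
    (fun z => z.2.1)
    (by rintro ⟨l, n, d⟩ h; cases l <;> cases n <;> simp_all)
    (by rintro ⟨l, n, d⟩ h; cases l <;> cases n <;> simp_all)
    (by rintro ⟨l, n, d⟩ h; cases l <;> cases n <;> simp_all)
    (by rintro ⟨l, n, d⟩ h; cases l <;> cases n <;> simp_all)
    (by rintro ⟨l, n, d⟩ h; cases l <;> cases n <;> simp_all; omega)).bigO 2 (fun z => by omega)⟩

noncomputable def getDCd : Cd := getD_ex.choose

/-! ### zip, flatten, sums -/

theorem zip_ex : ∃ c, ∀ (K : Type) [Field K] (α β : Type) [Enc K α] [Enc K β],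
    Comp K (fun z : List α × List β => z.1.zip z.2) c (fun z => min z.1.length z.2.length) :=
  ⟨_, fun K _ α β _ _ => (Comp.rec1 (K := K)
    (isLeaf := fun z : List α × List β => z.1.isEmpty || z.2.isEmpty)
    (leaf := fun _ => []) (next := fun z => (z.1.tail, z.2.tail))
    (join := fun z r => lcase z.1 r (fun a _ => lcase z.2 r (fun b _ => (a, b) :: r)))
    (T := fun z => 2 * min z.1.length z.2.length)
    (fun z => z.1.length)
    (by rintro ⟨l, m⟩ h; cases l <;> cases m <;> simp_all)
    (by rintro ⟨l, m⟩ h; cases l <;> cases m <;> simp_all)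
    (by rintro ⟨l, m⟩ h; cases l <;> cases m <;> simp_all)
    (by rintro ⟨l, m⟩ h; cases l <;> cases m <;> simp_all)
    (by rintro ⟨l, m⟩ h; cases l <;> cases m <;> simp_all; omega)).bigO 2 (fun z => by omega)⟩

noncomputable def zipCd : Cd := zip_ex.choose

theorem flatten_ex : ∃ c, ∀ (K : Type) [Field K] (α : Type) [Enc K α],
    Comp K (fun l : List (List α) => l.flatten) c
      (fun l => (l.map (fun r => r.length + 1)).sum) :=
  ⟨_, fun K _ α _ => (Comp.rec1 (K := K)
    (isLeaf := fun z : List (List α) => z.isEmpty)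
    (leaf := fun _ => []) (next := fun z => z.tail)
    (join := fun z r => lcase z r (fun a _ => a ++ r))
    (T := fun l => 2 * (l.map (fun r => r.length + 1)).sum)
    (fun z => z.length)
    (by rintro l h; cases l <;> simp_all)
    (by rintro l h; cases l <;> simp_all)
    (by rintro l h; cases l <;> simp_all)
    (by rintro l h; cases l <;> simp_all)
    (by rintro l h; cases l <;> simp_all; omega)).bigO 2 (fun z => by omega)⟩

noncomputable def flattenCd : Cd := flatten_ex.choose

theorem sumK_ex : ∃ c, ∀ (K : Type) [Field K],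
    Comp K (fun l : List K => l.sum) c (fun l => l.length) :=
  ⟨_, fun K _ => (Comp.rec1 (K := K)
    (isLeaf := fun z : List K => z.isEmpty)
    (leaf := fun _ => 0) (next := fun z => z.tail)
    (join := fun z r => lcase z r (fun a _ => a + r))
    (T := fun l => 2 * l.length)
    (fun z => z.length)
    (by rintro l h; cases l <;> simp_all)
    (by rintro l h; cases l <;> simp_all)
    (by rintro l h; cases l <;> simp_all)
    (by rintro l h; cases l <;> simp_all)
    (by rintro l h; cases l <;> simp_all; omega)).bigO 2 (fun z => by omega)⟩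

noncomputable def sumKCd : Cd := sumK_ex.choose

/-- Addition of numbers (only used in this file). -/
theorem list2_add_ex : ∃ c, ∀ (K : Type) [Field K],
    Comp K (fun z : ℕ × ℕ => z.1 + z.2) c (fun z => z.1) :=
  ⟨_, fun K _ => (Comp.rec1 (K := K)
    (isLeaf := fun z : ℕ × ℕ => decide (z.1 = 0))
    (leaf := fun z => z.2) (next := fun z => (z.1 - 1, z.2))
    (join := fun _ r => r + 1) (T := fun z => 2 * z.1)
    (fun z => z.1)
    (by rintro ⟨n, l⟩ h; cases n <;> simp_all)
    (by rintro ⟨n, l⟩ h; cases n <;> simp_all; omega)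
    (by rintro ⟨n, l⟩ h; cases n <;> simp_all)
    (by rintro ⟨n, l⟩ h; cases n <;> simp_all)
    (by rintro ⟨n, l⟩ h; cases n <;> simp_all; omega)).bigO 2 (fun z => by omega)⟩

theorem sumN_ex : ∃ c, ∀ (K : Type) [Field K],
    Comp K (fun l : List ℕ => l.sum) c (fun l => l.length + l.sum) := by
  obtain ⟨ca, hca⟩ := list2_add_ex
  exact ⟨_, fun K _ => by
    have hj : Comp K (fun z : List ℕ × ℕ => lcase z.1 z.2 (fun a _ => a + z.2)) _ _ :=
      Comp.lcase (l := fun z : List ℕ × ℕ => z.1) (f := fun z => z.2)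
        (g := fun z a _ => a + z.2)
        (hg := (hca K).comp (f := fun z : (List ℕ × ℕ) × (ℕ × List ℕ) => (z.2.1, z.1.2))
          Comp.pair)
    exact (Comp.rec1 (K := K)
      (isLeaf := fun z : List ℕ => z.isEmpty)
      (leaf := fun _ => 0) (next := fun z => z.tail)
      (join := fun z r => lcase z r (fun a _ => a + r))
      (T := fun l => 2 * (l.length + l.sum)) (h3 := hj)
      (fun z => z.length)
      (by rintro l h; cases l <;> simp_all)
      (by rintro l h; cases l <;> simp_all)
      (by rintro l h; cases l <;> simp_all)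
      (by rintro l h; cases l <;> simp_all)
      (by rintro l h; cases l <;> simp_all; omega)).bigO 2 (fun z => by omega)⟩

noncomputable def sumNCd : Cd := sumN_ex.choose

/-- pairs of the elements with their positions, starting at `n` -/
theorem zipIdx_ex : ∃ c, ∀ (K : Type) [Field K] (α : Type) [Enc K α],
    Comp K (fun z : List α × ℕ => z.1.zipIdx z.2) c (fun z => z.1.length) :=
  ⟨_, fun K _ α _ => (Comp.rec1 (K := K)
    (isLeaf := fun z : List α × ℕ => z.1.isEmpty)
    (leaf := fun _ => []) (next := fun z => (z.1.tail, z.2 + 1))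
    (join := fun z r => lcase z.1 r (fun b _ => (b, z.2) :: r)) (T := fun z => 2 * z.1.length)
    (fun z => z.1.length)
    (by rintro ⟨l, m⟩ h; cases l <;> simp_all)
    (by rintro ⟨l, m⟩ h; cases l <;> simp_all)
    (by rintro ⟨l, m⟩ h; cases l <;> simp_all)
    (by rintro ⟨l, m⟩ h; cases l <;> simp_all)
    (by rintro ⟨l, m⟩ h; cases l <;> simp_all; omega)).bigO 2 (fun z => by omega)⟩

noncomputable def zipIdxCd : Cd := zipIdx_ex.choose

theorem getLastD_ex : ∃ c, ∀ (K : Type) [Field K] (α : Type) [Enc K α],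
    Comp K (fun z : List α × α => z.1.getLastD z.2) c (fun z => z.1.length) :=
  ⟨_, fun K _ α _ => (Comp.rec1 (K := K)
    (isLeaf := fun z : List α × α => z.1.isEmpty)
    (leaf := fun z => z.2) (next := fun z => (z.1.tail, z.1.headD z.2))
    (join := fun _ r => r) (T := fun z => 2 * z.1.length)
    (fun z => z.1.length)
    (by rintro ⟨l, m⟩ h; cases l <;> simp_all)
    (by
      rintro ⟨l, m⟩ h
      cases l with
      | nil => simp_all
      | cons a t =>
        show (a :: t).getLastD m = t.getLastD a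
        rw [List.getLastD_cons])
    (by rintro ⟨l, m⟩ h; cases l <;> simp_all)
    (by rintro ⟨l, m⟩ h; cases l <;> simp_all)
    (by rintro ⟨l, m⟩ h; cases l <;> simp_all; omega)).bigO 2 (fun z => by omega)⟩

noncomputable def getLastDCd : Cd := getLastD_ex.choose

theorem dropLast_ex : ∃ c, ∀ (K : Type) [Field K] (α : Type) [Enc K α],
    Comp K (fun l : List α => l.dropLast) c (fun l => l.length) :=
  ⟨_, fun K _ α _ => (Comp.rec1 (K := K)
    (isLeaf := fun z : List α => z.tail.isEmpty)
    (leaf := fun _ => []) (next := fun z => z.tail)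
    (join := fun z r => lcase z r (fun a _ => a :: r)) (T := fun z => 2 * z.length)
    (fun z => z.length)
    (by rintro (_ | ⟨a, _ | ⟨b, l⟩⟩) h <;> simp_all)
    (by rintro (_ | ⟨a, _ | ⟨b, l⟩⟩) h <;> simp_all)
    (by rintro (_ | ⟨a, _ | ⟨b, l⟩⟩) h <;> simp_all)
    (by rintro (_ | ⟨a, _ | ⟨b, l⟩⟩) h <;> simp_all)
    (by rintro (_ | ⟨a, _ | ⟨b, l⟩⟩) h <;> simp_all; omega)).bigO 2 (fun z => by omega)⟩

noncomputable def dropLastCd : Cd := dropLast_ex.choose

/-! ### folds -/

/-- the cost of a right fold -/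
def foldrCost {α β : Type} (g : α → β → β) (Tg : α → β → ℕ) (b0 : β) : List α → ℕ
  | [] => 0
  | a :: l => Tg a (l.foldr g b0) + 1 + foldrCost g Tg b0 l

/-- the cost of a left fold -/
def foldlCost {α β : Type} (g : β → α → β) (Tg : β → α → ℕ) : β → List α → ℕ
  | _, [] => 0
  | b, a :: l => Tg b a + 1 + foldlCost g Tg (g b a) l

/-- A bound for the cost of a right fold, with an invariant of the intermediate results. -/
theorem foldrCost_le {α β : Type} {g : α → β → β} {Tg : α → β → ℕ} {b0 : β} {l : List α}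
    (P : β → Prop) (B : ℕ) (h0 : P b0) (hg : ∀ a ∈ l, ∀ b, P b → P (g a b))
    (hT : ∀ a ∈ l, ∀ b, P b → Tg a b ≤ B) : foldrCost g Tg b0 l ≤ l.length * (B + 1) := by
  have key : P (l.foldr g b0) ∧ foldrCost g Tg b0 l ≤ l.length * (B + 1) := by
    induction l with
    | nil => exact ⟨h0, by simp [foldrCost]⟩
    | cons a l ih =>
      obtain ⟨h1, h2⟩ := ih (fun a ha => hg a (List.mem_cons_of_mem _ ha))
        (fun a ha => hT a (List.mem_cons_of_mem _ ha))
      refine ⟨hg a (List.mem_cons_self ..) _ h1, ?_⟩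
      have := hT a (List.mem_cons_self ..) _ h1
      simp only [foldrCost, List.length_cons]
      rw [Nat.add_mul]
      omega
  exact key.2

/-- A bound for the cost of a left fold, with an invariant of the intermediate results. -/
theorem foldlCost_le {α β : Type} {g : β → α → β} {Tg : β → α → ℕ} {b0 : β} {l : List α}
    (P : β → Prop) (B : ℕ) (h0 : P b0) (hg : ∀ a ∈ l, ∀ b, P b → P (g b a))
    (hT : ∀ a ∈ l, ∀ b, P b → Tg b a ≤ B) : foldlCost g Tg b0 l ≤ l.length * (B + 1) := by
  induction l generalizing b0 with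
  | nil => simp [foldlCost]
  | cons a l ih =>
    have h1 := ih (hg a (List.mem_cons_self ..) _ h0)
      (fun a ha => hg a (List.mem_cons_of_mem _ ha))
      (fun a ha => hT a (List.mem_cons_of_mem _ ha))
    have := hT a (List.mem_cons_self ..) _ h0
    simp only [foldlCost, List.length_cons]
    rw [Nat.add_mul]
    omega

theorem foldr_ex : ∃ F : Cd → Cd, ∀ (cg : Cd) (K : Type) [Field K] (α β γ : Type) [Enc K α]
    [Enc K β] [Enc K γ] (g : γ → α → β → β) (Tg : γ × α × β → ℕ),
    Comp K (fun z : γ × α × β => g z.1 z.2.1 z.2.2) cg Tg →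
    Comp K (fun z : γ × β × List α => z.2.2.foldr (g z.1) z.2.1) (F cg)
      (fun z => foldrCost (g z.1) (fun a b => Tg (z.1, a, b)) z.2.1 z.2.2) :=
  ⟨fun _ => _, fun cg K _ α β γ _ _ _ g Tg hg => by
    have hj : Comp K (fun z : (γ × β × List α) × β =>
        lcase z.1.2.2 z.2 (fun a _ => g z.1.1 a z.2)) _ _ :=
      Comp.lcase (l := fun z : (γ × β × List α) × β => z.1.2.2) (f := fun z => z.2)
        (g := fun z a _ => g z.1.1 a z.2)
        (hg := hg.comp (f := fun z : ((γ × β × List α) × β) × (α × List α) =>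
          (z.1.1.1, z.2.1, z.1.2)) Comp.pair)
    exact (Comp.rec1 (K := K) (isLeaf := fun z : γ × β × List α => z.2.2.isEmpty)
      (leaf := fun z => z.2.1) (next := fun z => (z.1, z.2.1, z.2.2.tail))
      (join := fun z r => lcase z.2.2 r (fun a _ => g z.1 a r))
      (T := fun z => 2 * foldrCost (g z.1) (fun a b => Tg (z.1, a, b)) z.2.1 z.2.2) (h3 := hj)
      (fun z => z.2.2.length)
      (by rintro ⟨c, b, l⟩ h; cases l <;> simp_all)
      (by rintro ⟨c, b, l⟩ h; cases l <;> simp_all)
      (by rintro ⟨c, b, l⟩ h; cases l <;> simp_all)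
      (by rintro ⟨c, b, l⟩ h; cases l <;> simp_all [foldrCost])
      (by rintro ⟨c, b, l⟩ h; cases l <;> simp_all [foldrCost]; omega)).bigO 2
        (fun z => by omega)⟩

noncomputable def foldrCd (c : Cd) : Cd := foldr_ex.choose c

theorem foldl_ex : ∃ F : Cd → Cd, ∀ (cg : Cd) (K : Type) [Field K] (α β γ : Type) [Enc K α]
    [Enc K β] [Enc K γ] (g : γ → β → α → β) (Tg : γ × β × α → ℕ),
    Comp K (fun z : γ × β × α => g z.1 z.2.1 z.2.2) cg Tg →
    Comp K (fun z : γ × β × List α => z.2.2.foldl (g z.1) z.2.1) (F cg)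
      (fun z => foldlCost (g z.1) (fun b a => Tg (z.1, b, a)) z.2.1 z.2.2) :=
  ⟨fun _ => _, fun cg K _ α β γ _ _ _ g Tg hg => by
    have hb : Comp K (fun z : (γ × β × List α) × (α × List α) =>
        g z.1.1 z.1.2.1 z.2.1) _ _ :=
      hg.comp (f := fun z : (γ × β × List α) × (α × List α) =>
          (z.1.1, z.1.2.1, z.2.1)) Comp.pair
    have hj : Comp K (fun z : γ × β × List α =>
        lcase z.2.2 z (fun a t => (z.1, g z.1 z.2.1 a, t))) _ _ :=
      Comp.lcase (l := fun z : γ × β × List α => z.2.2) (f := fun z => z)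
        (g := fun z a t => (z.1, g z.1 z.2.1 a, t))
        (hg := Comp.pair (h' := Comp.pair (h := hb)))
    exact (Comp.rec1 (K := K) (isLeaf := fun z : γ × β × List α => z.2.2.isEmpty)
      (leaf := fun z => z.2.1)
      (next := fun z => lcase z.2.2 z (fun a t => (z.1, g z.1 z.2.1 a, t)))
      (join := fun _ r => r)
      (T := fun z => 2 * foldlCost (g z.1) (fun b a => Tg (z.1, b, a)) z.2.1 z.2.2) (h2 := hj)
      (fun z => z.2.2.length)
      (by rintro ⟨c, b, l⟩ h; cases l <;> simp_all)
      (by rintro ⟨c, b, l⟩ h; cases l <;> simp_all)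
      (by rintro ⟨c, b, l⟩ h; cases l <;> simp_all)
      (by rintro ⟨c, b, l⟩ h; cases l <;> simp_all [foldlCost])
      (by rintro ⟨c, b, l⟩ h; cases l <;> simp_all [foldlCost]; omega)).bigO 2
        (fun z => by omega)⟩

noncomputable def foldlCd (c : Cd) : Cd := foldl_ex.choose c

/-! ### filter, flatMap, zipWith, all, any, equality -/

theorem filter_ex : ∃ F : Cd → Cd, ∀ (cg : Cd) (K : Type) [Field K] (α γ : Type) [Enc K α]
    [Enc K γ] (g : γ → α → Bool) (Tg : γ × α → ℕ),
    Comp K (fun z : γ × α => g z.1 z.2) cg Tg →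
    Comp K (fun z : γ × List α => z.2.filter (g z.1)) (F cg)
      (fun z => (z.2.map (fun a => Tg (z.1, a) + 1)).sum) :=
  ⟨fun _ => _, fun cg K _ α γ _ _ g Tg hg => by
    have hb : Comp K (fun z : ((γ × List α) × List α) × (α × List α) =>
        g z.1.1.1 z.2.1) _ _ :=
      hg.comp (f := fun z : ((γ × List α) × List α) × (α × List α) =>
          (z.1.1.1, z.2.1)) Comp.pair
    have hj : Comp K (fun z : (γ × List α) × List α =>
        lcase z.1.2 z.2 (fun a _ => bif g z.1.1 a then a :: z.2 else z.2)) _ _ :=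
      Comp.lcase (l := fun z : (γ × List α) × List α => z.1.2) (f := fun z => z.2)
        (g := fun z a _ => bif g z.1.1 a then a :: z.2 else z.2)
        (hg := Comp.cond (hb := hb))
    exact (Comp.rec1 (K := K) (isLeaf := fun z : γ × List α => z.2.isEmpty)
      (leaf := fun _ => []) (next := fun z => (z.1, z.2.tail))
      (join := fun z r => lcase z.2 r (fun a _ => bif g z.1 a then a :: r else r))
      (T := fun z => 2 * (z.2.map (fun a => Tg (z.1, a) + 1)).sum) (h3 := hj)
      (fun z => z.2.length)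
      (by rintro ⟨c, l⟩ h; cases l <;> simp_all)
      (by
        rintro ⟨c, l⟩ h
        cases l with
        | nil => simp_all
        | cons a t => cases hga : g c a <;> simp_all)
      (by rintro ⟨c, l⟩ h; cases l <;> simp_all)
      (by rintro ⟨c, l⟩ h; cases l <;> simp_all)
      (by rintro ⟨c, l⟩ h; cases l <;> simp_all; omega)).bigO 2
        (fun z => by omega)⟩

noncomputable def filterCd (c : Cd) : Cd := filter_ex.choose c

theorem flatMap_ex : ∃ F : Cd → Cd, ∀ (cg : Cd) (K : Type) [Field K] (α β γ : Type) [Enc K α]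
    [Enc K β] [Enc K γ] (g : γ → α → List β) (Tg : γ × α → ℕ),
    Comp K (fun z : γ × α => g z.1 z.2) cg Tg →
    Comp K (fun z : γ × List α => z.2.flatMap (g z.1)) (F cg)
      (fun z => (z.2.map (fun a => Tg (z.1, a) + (g z.1 a).length + 1)).sum) :=
  ⟨fun _ => _, fun cg K _ α β γ _ _ _ g Tg hg => by
    have hb : Comp K (fun z : ((γ × List α) × List β) × (α × List α) =>
        g z.1.1.1 z.2.1) _ _ :=
      hg.comp (f := fun z : ((γ × List α) × List β) × (α × List α) =>
          (z.1.1.1, z.2.1)) Comp.pair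
    have hj : Comp K (fun z : (γ × List α) × List β =>
        lcase z.1.2 z.2 (fun a _ => g z.1.1 a ++ z.2)) _ _ :=
      Comp.lcase (l := fun z : (γ × List α) × List β => z.1.2) (f := fun z => z.2)
        (g := fun z a _ => g z.1.1 a ++ z.2)
        (hg := Comp.append (h := hb))
    exact (Comp.rec1 (K := K) (isLeaf := fun z : γ × List α => z.2.isEmpty)
      (leaf := fun _ => []) (next := fun z => (z.1, z.2.tail))
      (join := fun z r => lcase z.2 r (fun a _ => g z.1 a ++ r))
      (T := fun z => 2 * (z.2.map (fun a => Tg (z.1, a) + (g z.1 a).length + 1)).sum) (h3 := hj)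
      (fun z => z.2.length)
      (by rintro ⟨c, l⟩ h; cases l <;> simp_all)
      (by rintro ⟨c, l⟩ h; cases l <;> simp_all)
      (by rintro ⟨c, l⟩ h; cases l <;> simp_all)
      (by rintro ⟨c, l⟩ h; cases l <;> simp_all)
      (by rintro ⟨c, l⟩ h; cases l <;> simp_all; omega)).bigO 2
        (fun z => by omega)⟩

noncomputable def flatMapCd (c : Cd) : Cd := flatMap_ex.choose c

theorem zipWith_ex : ∃ F : Cd → Cd, ∀ (cg : Cd) (K : Type) [Field K] (α β δ γ : Type) [Enc K α]
    [Enc K β] [Enc K δ] [Enc K γ] (g : γ → α → β → δ) (Tg : γ × α × β → ℕ),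
    Comp K (fun z : γ × α × β => g z.1 z.2.1 z.2.2) cg Tg →
    Comp K (fun z : γ × List α × List β => z.2.1.zipWith (g z.1) z.2.2) (F cg)
      (fun z => ((z.2.1.zip z.2.2).map (fun p => Tg (z.1, p.1, p.2) + 1)).sum) :=
  ⟨fun _ => _, fun cg K _ α β δ γ _ _ _ _ g Tg hg => by
    have hb : Comp K (fun z : (((γ × List α × List β) × List δ) × (α × List α)) ×
        (β × List β) => g z.1.1.1.1 z.1.2.1 z.2.1) _ _ :=
      hg.comp (f := fun z : (((γ × List α × List β) × List δ) × (α × List α)) ×
        (β × List β) => (z.1.1.1.1, z.1.2.1, z.2.1)) Comp.pair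
    have hi : Comp K (fun z : ((γ × List α × List β) × List δ) × (α × List α) =>
        lcase z.1.1.2.2 z.1.2 (fun b _ => g z.1.1.1 z.2.1 b :: z.1.2)) _ _ :=
      Comp.lcase (l := fun z : ((γ × List α × List β) × List δ) × (α × List α) => z.1.1.2.2)
        (f := fun z => z.1.2) (g := fun z b _ => g z.1.1.1 z.2.1 b :: z.1.2)
        (hg := Comp.cons (h := hb))
    have hj : Comp K (fun z : (γ × List α × List β) × List δ =>
        lcase z.1.2.1 z.2 (fun a _ => lcase z.1.2.2 z.2 (fun b _ => g z.1.1 a b :: z.2))) _ _ :=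
      Comp.lcase (l := fun z : (γ × List α × List β) × List δ => z.1.2.1) (f := fun z => z.2)
        (g := fun z a _ => lcase z.1.2.2 z.2 (fun b _ => g z.1.1 a b :: z.2))
        (hg := hi)
    exact (Comp.rec1 (K := K)
      (isLeaf := fun z : γ × List α × List β => z.2.1.isEmpty || z.2.2.isEmpty)
      (leaf := fun _ => []) (next := fun z => (z.1, z.2.1.tail, z.2.2.tail))
      (join := fun z r => lcase z.2.1 r (fun a _ => lcase z.2.2 r (fun b _ => g z.1 a b :: r)))
      (T := fun z => 2 * ((z.2.1.zip z.2.2).map (fun p => Tg (z.1, p.1, p.2) + 1)).sum)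
      (h3 := hj)
      (fun z => z.2.1.length)
      (by rintro ⟨c, l, m⟩ h; cases l <;> cases m <;> simp_all)
      (by rintro ⟨c, l, m⟩ h; cases l <;> cases m <;> simp_all)
      (by rintro ⟨c, l, m⟩ h; cases l <;> cases m <;> simp_all)
      (by rintro ⟨c, l, m⟩ h; cases l <;> cases m <;> simp_all)
      (by rintro ⟨c, l, m⟩ h; cases l <;> cases m <;> simp_all; omega)).bigO 2
        (fun z => by omega)⟩

noncomputable def zipWithCd (c : Cd) : Cd := zipWith_ex.choose c

theorem all_ex : ∃ F : Cd → Cd, ∀ (cg : Cd) (K : Type) [Field K] (α γ : Type) [Enc K α]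
    [Enc K γ] (g : γ → α → Bool) (Tg : γ × α → ℕ),
    Comp K (fun z : γ × α => g z.1 z.2) cg Tg →
    Comp K (fun z : γ × List α => z.2.all (g z.1)) (F cg)
      (fun z => (z.2.map (fun a => Tg (z.1, a) + 1)).sum) :=
  ⟨fun _ => _, fun cg K _ α γ _ _ g Tg hg => by
    have hb : Comp K (fun z : ((γ × List α) × Bool) × (α × List α) =>
        g z.1.1.1 z.2.1) _ _ :=
      hg.comp (f := fun z : ((γ × List α) × Bool) × (α × List α) =>
          (z.1.1.1, z.2.1)) Comp.pair
    have hj : Comp K (fun z : (γ × List α) × Bool =>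
        lcase z.1.2 z.2 (fun a _ => g z.1.1 a && z.2)) _ _ :=
      Comp.lcase (l := fun z : (γ × List α) × Bool => z.1.2) (f := fun z => z.2)
        (g := fun z a _ => g z.1.1 a && z.2)
        (hg := Comp.and (h := hb))
    exact (Comp.rec1 (K := K) (isLeaf := fun z : γ × List α => z.2.isEmpty)
      (leaf := fun _ => true) (next := fun z => (z.1, z.2.tail))
      (join := fun z r => lcase z.2 r (fun a _ => g z.1 a && r))
      (T := fun z => 2 * (z.2.map (fun a => Tg (z.1, a) + 1)).sum) (h3 := hj)
      (fun z => z.2.length)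
      (by rintro ⟨c, l⟩ h; cases l <;> simp_all)
      (by rintro ⟨c, l⟩ h; cases l <;> simp_all [List.all_cons])
      (by rintro ⟨c, l⟩ h; cases l <;> simp_all)
      (by rintro ⟨c, l⟩ h; cases l <;> simp_all)
      (by rintro ⟨c, l⟩ h; cases l <;> simp_all; omega)).bigO 2
        (fun z => by omega)⟩

noncomputable def allCd (c : Cd) : Cd := all_ex.choose c

theorem any_ex : ∃ F : Cd → Cd, ∀ (cg : Cd) (K : Type) [Field K] (α γ : Type) [Enc K α]
    [Enc K γ] (g : γ → α → Bool) (Tg : γ × α → ℕ),
    Comp K (fun z : γ × α => g z.1 z.2) cg Tg →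
    Comp K (fun z : γ × List α => z.2.any (g z.1)) (F cg)
      (fun z => (z.2.map (fun a => Tg (z.1, a) + 1)).sum) :=
  ⟨fun _ => _, fun cg K _ α γ _ _ g Tg hg => by
    have hb : Comp K (fun z : ((γ × List α) × Bool) × (α × List α) =>
        g z.1.1.1 z.2.1) _ _ :=
      hg.comp (f := fun z : ((γ × List α) × Bool) × (α × List α) =>
          (z.1.1.1, z.2.1)) Comp.pair
    have hj : Comp K (fun z : (γ × List α) × Bool =>
        lcase z.1.2 z.2 (fun a _ => g z.1.1 a || z.2)) _ _ :=
      Comp.lcase (l := fun z : (γ × List α) × Bool => z.1.2) (f := fun z => z.2)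
        (g := fun z a _ => g z.1.1 a || z.2)
        (hg := Comp.or (h := hb))
    exact (Comp.rec1 (K := K) (isLeaf := fun z : γ × List α => z.2.isEmpty)
      (leaf := fun _ => false) (next := fun z => (z.1, z.2.tail))
      (join := fun z r => lcase z.2 r (fun a _ => g z.1 a || r))
      (T := fun z => 2 * (z.2.map (fun a => Tg (z.1, a) + 1)).sum) (h3 := hj)
      (fun z => z.2.length)
      (by rintro ⟨c, l⟩ h; cases l <;> simp_all)
      (by rintro ⟨c, l⟩ h; cases l <;> simp_all [List.any_cons])
      (by rintro ⟨c, l⟩ h; cases l <;> simp_all)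
      (by rintro ⟨c, l⟩ h; cases l <;> simp_all)
      (by rintro ⟨c, l⟩ h; cases l <;> simp_all; omega)).bigO 2
        (fun z => by omega)⟩

noncomputable def anyCd (c : Cd) : Cd := any_ex.choose c

/-- equality of lists, from equality of the elements -/
theorem eqList_ex : ∃ F : Cd → Cd, ∀ (cg : Cd) (K : Type) [Field K] (α : Type) [Enc K α]
    [DecidableEq α] (Tg : α × α → ℕ), Comp K (fun z : α × α => decide (z.1 = z.2)) cg Tg →
    Comp K (fun z : List α × List α => decide (z.1 = z.2)) (F cg)
      (fun z => ((z.1.zip z.2).map (fun p => Tg p + 1)).sum) :=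
  ⟨fun _ => _, fun cg K _ α _ _ Tg hg => by
    have hb : Comp K (fun z : (((List α × List α) × Bool) × (α × List α)) ×
        (α × List α) => decide (z.1.2.1 = z.2.1)) _ _ :=
      hg.comp (f := fun z : (((List α × List α) × Bool) × (α × List α)) ×
        (α × List α) => (z.1.2.1, z.2.1)) Comp.pair
    have hi : Comp K (fun z : ((List α × List α) × Bool) × (α × List α) =>
        lcase z.1.1.2 z.1.2 (fun b _ => decide (z.2.1 = b) && z.1.2)) _ _ :=
      Comp.lcase (l := fun z : ((List α × List α) × Bool) × (α × List α) => z.1.1.2)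
        (f := fun z => z.1.2) (g := fun z b _ => decide (z.2.1 = b) && z.1.2)
        (hg := Comp.and (h := hb))
    have hj : Comp K (fun z : (List α × List α) × Bool =>
        lcase z.1.1 z.2 (fun a _ => lcase z.1.2 z.2 (fun b _ => decide (a = b) && z.2))) _ _ :=
      Comp.lcase (l := fun z : (List α × List α) × Bool => z.1.1) (f := fun z => z.2)
        (g := fun z a _ => lcase z.1.2 z.2 (fun b _ => decide (a = b) && z.2))
        (hg := hi)
    exact (Comp.rec1 (K := K)
      (isLeaf := fun z : List α × List α => z.1.isEmpty || z.2.isEmpty)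
      (leaf := fun z => z.1.isEmpty && z.2.isEmpty) (next := fun z => (z.1.tail, z.2.tail))
      (join := fun z r => lcase z.1 r (fun a _ => lcase z.2 r (fun b _ => decide (a = b) && r)))
      (T := fun z => 2 * ((z.1.zip z.2).map (fun p => Tg p + 1)).sum)
      (h3 := hj)
      (fun z => z.1.length)
      (by rintro ⟨l, m⟩ h; cases l <;> cases m <;> simp_all)
      (by
        rintro ⟨l, m⟩ h
        cases l with
        | nil => cases m <;> simp_all
        | cons a l =>
          cases m with
          | nil => simp_all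
          | cons b m =>
            rw [Bool.eq_iff_iff]
            simp only [decide_eq_true_eq, lcase, List.tail_cons, Bool.and_eq_true, List.cons.injEq])
      (by rintro ⟨l, m⟩ h; cases l <;> cases m <;> simp_all)
      (by rintro ⟨l, m⟩ h; cases l <;> cases m <;> simp_all)
      (by rintro ⟨l, m⟩ h; cases l <;> cases m <;> simp_all; omega)).bigO 2
        (fun z => by omega)⟩

noncomputable def eqListCd (c : Cd) : Cd := eqList_ex.choose c

/-! ### Compositional forms -/

section

variable {K : Type} [Field K] {α β γ δ : Type} [Enc K α] [Enc K β] [Enc K γ] [Enc K δ]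

instance Comp.take {n : α → ℕ} {l : α → List β} {c d : Cd} {T T' : α → ℕ} [h : Comp K n c T]
    [h' : Comp K l d T'] : Comp K (fun x => (l x).take (n x)) (takeCd.comp (c.pair d))
      (fun x => T x + T' x + n x) := (take_ex.choose_spec K β).app2 h h'

instance Comp.drop {n : α → ℕ} {l : α → List β} {c d : Cd} {T T' : α → ℕ} [h : Comp K n c T]
    [h' : Comp K l d T'] : Comp K (fun x => (l x).drop (n x)) (dropCd.comp (c.pair d))
      (fun x => T x + T' x + n x) := (drop_ex.choose_spec K β).app2 h h'

instance Comp.replicate {n : α → ℕ} {b : α → β} {c d : Cd} {T T' : α → ℕ} [h : Comp K n c T]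
    [h' : Comp K b d T'] : Comp K (fun x => List.replicate (n x) (b x))
      (replicateCd.comp (c.pair d)) (fun x => T x + T' x + n x) :=
  (replicate_ex.choose_spec K β).app2 h h'

instance Comp.range {n : α → ℕ} {c : Cd} {T : α → ℕ} [h : Comp K n c T] :
    Comp K (fun x => List.range (n x)) (rangeCd.comp c) (fun x => T x + n x) :=
  (range_ex.choose_spec K).app1 h

instance Comp.range_eta : Comp K List.range (rangeCd.comp Cd.id) (fun n => 0 + n) :=
  Comp.range (n := fun x : ℕ => x)

instance Comp.getDL {l : α → List β} {n : α → ℕ} {b : α → β} {c d e : Cd} {T T' T'' : α → ℕ}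
    [h : Comp K l c T] [h' : Comp K n d T'] [h'' : Comp K b e T''] :
    Comp K (fun x => (l x).getD (n x) (b x)) (getDCd.comp (c.pair (d.pair e)))
      (fun x => T x + (T' x + T'' x) + n x) :=
  (getD_ex.choose_spec K β).comp (f := fun x => (l x, n x, b x)) (Comp.pair (h' := Comp.pair))

instance Comp.zip {l : α → List β} {m : α → List γ} {c d : Cd} {T T' : α → ℕ}
    [h : Comp K l c T] [h' : Comp K m d T'] : Comp K (fun x => (l x).zip (m x))
      (zipCd.comp (c.pair d)) (fun x => T x + T' x + min (l x).length (m x).length) :=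
  (zip_ex.choose_spec K β γ).app2 h h'

instance Comp.flatten {l : α → List (List β)} {c : Cd} {T : α → ℕ} [h : Comp K l c T] :
    Comp K (fun x => (l x).flatten) (flattenCd.comp c)
      (fun x => T x + ((l x).map (fun r => r.length + 1)).sum) :=
  (flatten_ex.choose_spec K β).app1 h

instance Comp.flatten_eta : Comp K (List.flatten : List (List β) → List β)
    (flattenCd.comp Cd.id) (fun l => 0 + (l.map (fun r => r.length + 1)).sum) :=
  Comp.flatten (l := fun x : List (List β) => x)

instance Comp.sumK {l : α → List K} {c : Cd} {T : α → ℕ} [h : Comp K l c T] :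
    Comp K (fun x => (l x).sum) (sumKCd.comp c) (fun x => T x + (l x).length) :=
  (sumK_ex.choose_spec K).app1 h

instance Comp.sumK_eta : Comp K (List.sum : List K → K) (sumKCd.comp Cd.id)
    (fun l => 0 + l.length) := Comp.sumK (l := fun x : List K => x)

instance Comp.sumN {l : α → List ℕ} {c : Cd} {T : α → ℕ} [h : Comp K l c T] :
    Comp K (fun x => (l x).sum) (sumNCd.comp c) (fun x => T x + ((l x).length + (l x).sum)) :=
  (sumN_ex.choose_spec K).app1 h

instance Comp.sumN_eta : Comp K (List.sum : List ℕ → ℕ) (sumNCd.comp Cd.id)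
    (fun l => 0 + (l.length + l.sum)) := Comp.sumN (l := fun x : List ℕ => x)

instance Comp.zipIdx {l : α → List β} {n : α → ℕ} {c d : Cd} {T T' : α → ℕ}
    [h : Comp K l c T] [h' : Comp K n d T'] : Comp K (fun x => (l x).zipIdx (n x))
      (zipIdxCd.comp (c.pair d)) (fun x => T x + T' x + (l x).length) :=
  (zipIdx_ex.choose_spec K β).app2 h h'

instance Comp.getLastD {l : α → List β} {b : α → β} {c d : Cd} {T T' : α → ℕ}
    [h : Comp K l c T] [h' : Comp K b d T'] : Comp K (fun x => (l x).getLastD (b x))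
      (getLastDCd.comp (c.pair d)) (fun x => T x + T' x + (l x).length) :=
  (getLastD_ex.choose_spec K β).app2 h h'

instance Comp.dropLast {l : α → List β} {c : Cd} {T : α → ℕ} [h : Comp K l c T] :
    Comp K (fun x => (l x).dropLast) (dropLastCd.comp c) (fun x => T x + (l x).length) :=
  (dropLast_ex.choose_spec K β).app1 h

instance Comp.dropLast_eta : Comp K (List.dropLast : List β → List β)
    (dropLastCd.comp Cd.id) (fun l => 0 + l.length) :=
  Comp.dropLast (l := fun x : List β => x)

instance Comp.foldr {l : α → List β} {b : α → γ} {g : α → β → γ → γ} {c d e : Cd}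
    {T T' : α → ℕ} {Tg : α × β × γ → ℕ} [h : Comp K l c T] [h' : Comp K b d T']
    [hg : Comp K (fun z : α × β × γ => g z.1 z.2.1 z.2.2) e Tg] :
    Comp K (fun x => (l x).foldr (g x) (b x)) ((foldrCd e).comp (Cd.id.pair (d.pair c)))
      (fun x => T' x + T x + foldrCost (g x) (fun a r => Tg (x, a, r)) (b x) (l x)) :=
  ((foldr_ex.choose_spec e K β γ α g Tg hg).comp (f := fun x => (x, b x, l x))
    (Comp.pair (h := Comp.id) (h' := Comp.pair))).mono (fun x => by simp)

instance Comp.foldl {l : α → List β} {b : α → γ} {g : α → γ → β → γ} {c d e : Cd}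
    {T T' : α → ℕ} {Tg : α × γ × β → ℕ} [h : Comp K l c T] [h' : Comp K b d T']
    [hg : Comp K (fun z : α × γ × β => g z.1 z.2.1 z.2.2) e Tg] :
    Comp K (fun x => (l x).foldl (g x) (b x)) ((foldlCd e).comp (Cd.id.pair (d.pair c)))
      (fun x => T' x + T x + foldlCost (g x) (fun r a => Tg (x, r, a)) (b x) (l x)) :=
  ((foldl_ex.choose_spec e K β γ α g Tg hg).comp (f := fun x => (x, b x, l x))
    (Comp.pair (h := Comp.id) (h' := Comp.pair))).mono (fun x => by simp)

instance Comp.filter {l : α → List β} {g : α → β → Bool} {c d : Cd} {T : α → ℕ}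
    {Tg : α × β → ℕ} [h : Comp K l c T] [hg : Comp K (fun z : α × β => g z.1 z.2) d Tg] :
    Comp K (fun x => (l x).filter (g x)) ((filterCd d).comp (Cd.id.pair c))
      (fun x => T x + ((l x).map (fun b => Tg (x, b) + 1)).sum) :=
  ((filter_ex.choose_spec d K β α g Tg hg).app2 Comp.id h).mono (fun x => by simp)

instance Comp.flatMap {l : α → List β} {g : α → β → List γ} {c d : Cd} {T : α → ℕ}
    {Tg : α × β → ℕ} [h : Comp K l c T] [hg : Comp K (fun z : α × β => g z.1 z.2) d Tg] :
    Comp K (fun x => (l x).flatMap (g x)) ((flatMapCd d).comp (Cd.id.pair c))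
      (fun x => T x + ((l x).map (fun b => Tg (x, b) + (g x b).length + 1)).sum) :=
  ((flatMap_ex.choose_spec d K β γ α g Tg hg).app2 Comp.id h).mono (fun x => by simp)

instance Comp.zipWith {l : α → List β} {m : α → List γ} {g : α → β → γ → δ} {c d e : Cd}
    {T T' : α → ℕ} {Tg : α × β × γ → ℕ} [h : Comp K l c T] [h' : Comp K m d T']
    [hg : Comp K (fun z : α × β × γ => g z.1 z.2.1 z.2.2) e Tg] :
    Comp K (fun x => (l x).zipWith (g x) (m x)) ((zipWithCd e).comp (Cd.id.pair (c.pair d)))
      (fun x => T x + T' x + (((l x).zip (m x)).map (fun p => Tg (x, p.1, p.2) + 1)).sum) :=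
  ((zipWith_ex.choose_spec e K β γ δ α g Tg hg).comp (f := fun x => (x, l x, m x))
    (Comp.pair (h := Comp.id) (h' := Comp.pair))).mono (fun x => by simp)

instance Comp.all {l : α → List β} {g : α → β → Bool} {c d : Cd} {T : α → ℕ}
    {Tg : α × β → ℕ} [h : Comp K l c T] [hg : Comp K (fun z : α × β => g z.1 z.2) d Tg] :
    Comp K (fun x => (l x).all (g x)) ((allCd d).comp (Cd.id.pair c))
      (fun x => T x + ((l x).map (fun b => Tg (x, b) + 1)).sum) :=
  ((all_ex.choose_spec d K β α g Tg hg).app2 Comp.id h).mono (fun x => by simp)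

instance Comp.any {l : α → List β} {g : α → β → Bool} {c d : Cd} {T : α → ℕ}
    {Tg : α × β → ℕ} [h : Comp K l c T] [hg : Comp K (fun z : α × β => g z.1 z.2) d Tg] :
    Comp K (fun x => (l x).any (g x)) ((anyCd d).comp (Cd.id.pair c))
      (fun x => T x + ((l x).map (fun b => Tg (x, b) + 1)).sum) :=
  ((any_ex.choose_spec d K β α g Tg hg).app2 Comp.id h).mono (fun x => by simp)

/-- Equality of lists with elements of any type with decidable equality. -/
theorem Comp.eqList [DecidableEq β] {l m : α → List β} {c d e : Cd} {T T' : α → ℕ}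
    {Te : β × β → ℕ} (h : Comp K l c T) (h' : Comp K m d T')
    (he : Comp K (fun z : β × β => decide (z.1 = z.2)) e Te) :
    Comp K (fun x => decide (l x = m x)) ((eqListCd e).comp (c.pair d))
      (fun x => T x + T' x + (((l x).zip (m x)).map (fun p => Te p + 1)).sum) :=
  (eqList_ex.choose_spec e K β Te he).app2 h h'

/-- Equality of lists of field elements. -/
instance Comp.eqListK [DecidableEq K] {l m : α → List K} {c d : Cd} {T T' : α → ℕ}
    [h : Comp K l c T] [h' : Comp K m d T'] : Comp K (fun x => decide (l x = m x))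
      ((eqListCd (Cd.comp ⟨.isZero, 1⟩ (Cd.op .sub Cd.id.fst Cd.id.snd))).comp (c.pair d))
      (fun x => T x + T' x + min (l x).length (m x).length) :=
  (Comp.eqList h h' (Comp.eqK (f := fun z : K × K => z.1) (g := fun z : K × K => z.2))).mono
    (fun x => by simp)

example : ∃ c T, Comp K (fun x : List K × ℕ => ((x.1.take x.2).foldr (fun a b => a * b + 1) 1)) c
    T := ⟨_, _, inferInstance⟩

example : ∃ c T, Comp K (fun x : List K × ℕ =>
    (List.range x.2).flatMap (fun i => (x.1.drop i).zipWith (fun a b => a * b) x.1)) c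
    T := ⟨_, _, inferInstance⟩

example : ∃ c T, Comp K (fun x : List (K × ℕ) × ℕ =>
    ((x.1.filter (fun y => decide (y.2 = 0))).map (fun y => y.1)).sum) c
    T := ⟨_, _, inferInstance⟩

example : ∃ c T, Comp K (fun x : List (List K) × ℕ =>
    x.1.all (fun y => (y.getD x.2 0 :: y.dropLast).isEmpty)) c
    T := ⟨_, _, inferInstance⟩

example : ∃ c T, Comp K (fun x : List (List K) × K =>
    (x.1.zipIdx 1).foldl (fun a y => a + y.1.getLastD x.2) 1) c
    T := ⟨_, _, inferInstance⟩

end

end Pool.Agent.TreeRAM
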