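import Pool.Agent.Work.TreeRAM.Enc

/-!
# Cost calculus for the tree language

`Comp K f c T`: the program `c.p` computes `f` (on encoded data) within `c.k * (T x + 1)` steps.
`Comp` is a class whose last two arguments are output parameters, so that Lean finds the program
and the cost function of a composed function by instance search.
-/

set_option autoImplicit false

namespace Pool.Agent.TreeRAM

/-! ### Runs with bounds -/

/-- `p` transforms `x` into `y` in at most `n` steps. -/
def RunLe {K : Type} [Field K] (p : Prog) (x y : D K) (n : ℕ) : Prop := ∃ t ≤ n, Run p x y t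

section runle

variable {K : Type} [Field K]

theorem RunLe.mono {p : Prog} {x y : D K} {m n : ℕ} (h : RunLe p x y m) (hmn : m ≤ n) :
    RunLe p x y n := by
  obtain ⟨t, ht, h⟩ := h
  exact ⟨t, ht.trans hmn, h⟩

theorem RunLe.id (x : D K) : RunLe .id x x 1 := ⟨1, le_rfl, .id x⟩
theorem RunLe.nil (x : D K) : RunLe .nil x .nil 1 := ⟨1, le_rfl, .nil x⟩
theorem RunLe.one (x : D K) : RunLe .one x (.elt 1) 1 := ⟨1, le_rfl, .one x⟩
theorem RunLe.fst (u v : D K) : RunLe .fst (.pair u v) u 1 := ⟨1, le_rfl, .fst u v⟩
theorem RunLe.snd (u v : D K) : RunLe .snd (.pair u v) v 1 := ⟨1, le_rfl, .snd u v⟩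

theorem RunLe.seq {p q : Prog} {x y z : D K} {m n : ℕ} (h : RunLe p x y m) (h' : RunLe q y z n) :
    RunLe (.seq p q) x z (m + n + 1) := by
  obtain ⟨s, hs, h⟩ := h
  obtain ⟨t, ht, h'⟩ := h'
  exact ⟨_, by omega, h.seq h'⟩

theorem RunLe.pair {p q : Prog} {x y z : D K} {m n : ℕ} (h : RunLe p x y m)
    (h' : RunLe q x z n) : RunLe (.pair p q) x (.pair y z) (m + n + 1) := by
  obtain ⟨s, hs, h⟩ := h
  obtain ⟨t, ht, h'⟩ := h'
  exact ⟨_, by omega, h.pair h'⟩

theorem RunLe.cond_true {b p q : Prog} {x u v y : D K} {m n : ℕ} (h : RunLe b x (.pair u v) m)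
    (h' : RunLe p x y n) : RunLe (.cond b p q) x y (m + n + 1) := by
  obtain ⟨s, hs, h⟩ := h
  obtain ⟨t, ht, h'⟩ := h'
  exact ⟨_, by omega, .cond_true h h'⟩

theorem RunLe.cond_false {b p q : Prog} {x y : D K} {m n : ℕ} (h : RunLe b x .nil m)
    (h' : RunLe q x y n) : RunLe (.cond b p q) x y (m + n + 1) := by
  obtain ⟨s, hs, h⟩ := h
  obtain ⟨t, ht, h'⟩ := h'
  exact ⟨_, by omega, .cond_false h h'⟩

/-- `n` bounds the cost of some number of passes through the loop leading from `x` to `y`. -/
inductive LoopTo (b p : Prog) : D K → D K → ℕ → Prop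
  | refl (x : D K) (n : ℕ) : LoopTo b p x x n
  | step {x u v y z : D K} {r s n m : ℕ} : RunLe b x (.pair u v) r → RunLe p x y s →
      LoopTo b p y z n → r + s + n + 1 ≤ m → LoopTo b p x z m

theorem LoopTo.mono {b p : Prog} {x y : D K} {m n : ℕ} (h : LoopTo b p x y m) (hmn : m ≤ n) :
    LoopTo b p x y n := by
  cases h with
  | refl => exact .refl _ _
  | step h1 h2 h3 h4 => exact .step h1 h2 h3 (h4.trans hmn)

theorem LoopTo.trans {b p : Prog} {x y z : D K} {m n : ℕ} (h : LoopTo b p x y m)
    (h' : LoopTo b p y z n) : LoopTo b p x z (m + n) := by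
  induction h with
  | refl x k => exact h'.mono (by omega)
  | step h1 h2 _ h4 ih => exact .step h1 h2 (ih h') (by omega)

theorem LoopTo.runLe {b p : Prog} {x y : D K} {m n : ℕ} (h : LoopTo b p x y m)
    (h' : RunLe b y .nil n) : RunLe (.loop b p) x y (m + n + 1) := by
  induction h with
  | refl x k =>
    obtain ⟨t, ht, h'⟩ := h'
    exact ⟨_, by omega, .loop_false h'⟩
  | step h1 h2 _ h4 ih =>
    obtain ⟨r, hr, h1⟩ := h1
    obtain ⟨s, hs, h2⟩ := h2
    obtain ⟨t, ht, h3⟩ := ih h'
    exact ⟨_, by omega, .loop_true h1 h2 h3⟩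

end runle

section encs

variable {K : Type} {α β : Type} [Enc K α] [Enc K β]

theorem enc_elt (a : K) : enc K a = .elt a := rfl
theorem enc_unit (a : Unit) : enc K a = .nil := rfl
theorem enc_true : enc K true = .pair .nil .nil := rfl
theorem enc_false : enc K false = .nil := rfl
theorem enc_pair (a : α) (b : β) : enc K (a, b) = .pair (enc K a) (enc K b) := rfl
theorem enc_zero : enc K (0 : ℕ) = .nil := rfl
theorem enc_succ (n : ℕ) : enc K (n + 1) = .pair .nil (enc K n) := rfl
theorem enc_nil : enc K ([] : List α) = .nil := rfl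
theorem enc_cons (a : α) (l : List α) : enc K (a :: l) = .pair (enc K a) (enc K l) := rfl
theorem enc_none : enc K (none : Option α) = .nil := rfl
theorem enc_some (a : α) : enc K (some a) = .pair (enc K a) .nil := rfl

end encs

/-! ### Codes and `Comp` -/

/-- A program together with a constant. -/
structure Cd where
  /-- the program -/
  p : Prog
  /-- the constant -/
  k : ℕ

/-- `Comp K f c T`: the program of `c` computes `f x` from `x` in at most `c.k * (T x + 1)`
steps, for every `x`. -/
class Comp (K : Type) [Field K] {α β : Type} [Enc K α] [Enc K β] (f : α → β)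
    (c : outParam Cd) (T : outParam (α → ℕ)) : Prop where
  run : ∀ x, RunLe c.p (enc K x) (enc K (f x)) (c.k * (T x + 1))

section basic

variable {K : Type} [Field K] {α β γ δ : Type} [Enc K α] [Enc K β] [Enc K γ] [Enc K δ]

/-- Replace the cost by a larger one. -/
theorem Comp.mono {f : α → β} {c : Cd} {T T' : α → ℕ} (h : Comp K f c T)
    (hT : ∀ x, T x ≤ T' x) : Comp K f c T' :=
  ⟨fun x => (h.run x).mono (Nat.mul_le_mul_left _ (by have := hT x; omega))⟩

/-- Multiply the constant of a code. -/
def Cd.mulk (c : Cd) (m : ℕ) : Cd := ⟨c.p, c.k * m⟩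

/-- Replace the cost by a cost that is larger up to a constant factor. -/
theorem Comp.bigO {f : α → β} {c : Cd} {T T' : α → ℕ} (m : ℕ) (h : Comp K f c T)
    (hT : ∀ x, T x + 1 ≤ m * (T' x + 1)) : Comp K f (c.mulk m) T' :=
  ⟨fun x => (h.run x).mono (by
    show c.k * (T x + 1) ≤ c.k * m * (T' x + 1)
    rw [mul_assoc]
    exact Nat.mul_le_mul_left _ (hT x))⟩

theorem Comp.congr {f g : α → β} {c : Cd} {T : α → ℕ} (h : Comp K f c T) (hfg : ∀ x, f x = g x) :
    Comp K g c T := ⟨fun x => by rw [← hfg x]; exact h.run x⟩

/-- Change of the input type along maps that preserve the encoding. -/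
theorem Comp.precomp {f : α → β} {c : Cd} {T : α → ℕ} (h : Comp K f c T) (e : γ → α)
    (he : ∀ x, enc K (e x) = enc K x) : Comp K (fun x => f (e x)) c (fun x => T (e x)) :=
  ⟨fun x => by rw [← he x]; exact h.run (e x)⟩

/-- Change of the output type along maps that preserve the encoding. -/
theorem Comp.postcomp {f : α → β} {c : Cd} {T : α → ℕ} (h : Comp K f c T) (e : β → γ)
    (he : ∀ x, enc K (e x) = enc K x) : Comp K (fun x => e (f x)) c T :=
  ⟨fun x => by
    show RunLe c.p (enc K x) (enc K (e (f x))) _
    rw [he]; exact h.run x⟩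

def Cd.id : Cd := ⟨.id, 1⟩

instance (priority := 3000) Comp.id : Comp K (fun x : α => x) Cd.id (fun _ => 0) :=
  ⟨fun _ => RunLe.id _⟩

/-- First `c`, then `d`. -/
def Cd.comp (d c : Cd) : Cd := ⟨.seq c.p d.p, c.k + d.k + 1⟩

theorem Comp.comp {g : β → γ} {f : α → β} {d c : Cd} {Tg : β → ℕ} {Tf : α → ℕ}
    (hg : Comp K g d Tg) (hf : Comp K f c Tf) :
    Comp K (fun x => g (f x)) (d.comp c) (fun x => Tf x + Tg (f x)) :=
  ⟨fun x => ((hf.run x).seq (hg.run (f x))).mono (by
    show c.k * (Tf x + 1) + d.k * (Tg (f x) + 1) + 1 ≤ (c.k + d.k + 1) * (Tf x + Tg (f x) + 1)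
    nlinarith [Nat.zero_le (c.k * Tg (f x)), Nat.zero_le (d.k * Tf x)])⟩

def Cd.fst (c : Cd) : Cd := Cd.comp ⟨.fst, 1⟩ c
def Cd.snd (c : Cd) : Cd := Cd.comp ⟨.snd, 1⟩ c

theorem Comp.fst0 : Comp K (fun x : α × β => x.1) ⟨.fst, 1⟩ (fun _ => 0) :=
  ⟨fun _ => RunLe.fst _ _⟩

theorem Comp.snd0 : Comp K (fun x : α × β => x.2) ⟨.snd, 1⟩ (fun _ => 0) :=
  ⟨fun _ => RunLe.snd _ _⟩

instance (priority := 2000) Comp.fst {f : α → β × γ} {c : Cd} {T : α → ℕ} [h : Comp K f c T] :
    Comp K (fun x => (f x).1) c.fst T := Comp.fst0.comp h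

instance (priority := 2000) Comp.snd {f : α → β × γ} {c : Cd} {T : α → ℕ} [h : Comp K f c T] :
    Comp K (fun x => (f x).2) c.snd T := Comp.snd0.comp h

def Cd.pair (c d : Cd) : Cd := ⟨.pair c.p d.p, c.k + d.k + 1⟩

instance (priority := 500) Comp.pair {f : α → β} {g : α → γ} {c d : Cd} {T T' : α → ℕ}
    [h : Comp K f c T] [h' : Comp K g d T'] :
    Comp K (fun x => (f x, g x)) (c.pair d) (fun x => T x + T' x) :=
  ⟨fun x => ((h.run x).pair (h'.run x)).mono (by
    show c.k * (T x + 1) + d.k * (T' x + 1) + 1 ≤ (c.k + d.k + 1) * (T x + T' x + 1)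
    nlinarith [Nat.zero_le (c.k * T' x), Nat.zero_le (d.k * T x)])⟩

end basic

/-! ### Constants -/

/-- A tree without atoms. -/
inductive PT : Type
  | nil : PT
  | pair (u v : PT) : PT

/-- The tree over `K`. -/
def PT.toD (K : Type) : PT → D K
  | .nil => .nil
  | .pair u v => .pair (u.toD K) (v.toD K)

/-- Program writing a constant tree. -/
def PT.prog : PT → Prog
  | .nil => .nil
  | .pair u v => .pair u.prog v.prog

def PT.cost : PT → ℕ
  | .nil => 1
  | .pair u v => u.cost + v.cost + 1

theorem PT.runLe {K : Type} [Field K] (u : PT) (x : D K) : RunLe u.prog x (u.toD K) u.cost := by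
  induction u with
  | nil => exact RunLe.nil x
  | pair u v ihu ihv => exact ihu.pair ihv

def PT.ofNat : ℕ → PT
  | 0 => .nil
  | n + 1 => .pair .nil (PT.ofNat n)

theorem PT.toD_ofNat (K : Type) (n : ℕ) : (PT.ofNat n).toD K = enc K n := by
  induction n with
  | zero => rfl
  | succ n ih => rw [enc_succ, ← ih]; rfl

def Cd.const (u : PT) : Cd := ⟨u.prog, u.cost⟩

section consts

variable {K : Type} [Field K] {α β γ δ : Type} [Enc K α] [Enc K β] [Enc K γ] [Enc K δ]

theorem Comp.constPT (u : PT) (b : β) (hb : enc K b = u.toD K) :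
    Comp K (fun _ : α => b) (Cd.const u) (fun _ => 0) :=
  ⟨fun x => by
    rw [hb]
    exact (u.runLe _).mono (by show u.cost ≤ u.cost * (0 + 1); omega)⟩

instance (priority := 2500) Comp.natLit (n : ℕ) :
    Comp K (fun _ : α => n) (Cd.const (PT.ofNat n)) (fun _ => 0) :=
  Comp.constPT _ _ (PT.toD_ofNat K n).symm

instance (priority := 2500) Comp.unitLit (u : Unit) :
    Comp K (fun _ : α => u) (Cd.const .nil) (fun _ => 0) := Comp.constPT _ _ rfl

def PT.ofBool (b : Bool) : PT := bif b then .pair .nil .nil else .nil

instance (priority := 2500) Comp.boolLit (b : Bool) :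
    Comp K (fun _ : α => b) (Cd.const (PT.ofBool b)) (fun _ => 0) :=
  Comp.constPT _ _ (by cases b <;> rfl)

instance (priority := 2500) Comp.nilLit :
    Comp K (fun _ : α => ([] : List β)) (Cd.const .nil) (fun _ => 0) := Comp.constPT _ _ rfl

instance (priority := 2500) Comp.noneLit :
    Comp K (fun _ : α => (none : Option β)) (Cd.const .nil) (fun _ => 0) := Comp.constPT _ _ rfl

def Cd.one : Cd := ⟨.one, 1⟩

instance (priority := 2500) Comp.oneLit : Comp K (fun _ : α => (1 : K)) Cd.one (fun _ => 0) :=
  ⟨fun _ => RunLe.one _⟩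

end consts

/-! ### Case distinctions -/

section cases

variable {K : Type} [Field K] {α β γ δ : Type} [Enc K α] [Enc K β] [Enc K γ] [Enc K δ]

def Cd.cond (b c d : Cd) : Cd := ⟨.cond b.p c.p d.p, b.k + c.k + d.k + 1⟩

/-- Case distinction with the exact cost. -/
theorem Comp.cond' {b : α → Bool} {f g : α → β} {cb cf cg : Cd} {Tb Tf Tg : α → ℕ}
    (hb : Comp K b cb Tb) (hf : Comp K f cf Tf) (hg : Comp K g cg Tg) :
    Comp K (fun x => bif b x then f x else g x) (Cd.cond cb cf cg)
      (fun x => Tb x + bif b x then Tf x else Tg x) :=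
  ⟨fun x => by
    have h := hb.run x
    show RunLe (.cond cb.p cf.p cg.p) _ (enc K (bif b x then f x else g x))
      ((cb.k + cf.k + cg.k + 1) * (Tb x + (bif b x then Tf x else Tg x) + 1))
    cases hbx : b x
    · rw [hbx] at h
      refine (RunLe.cond_false h (hg.run x)).mono ?_
      show cb.k * (Tb x + 1) + cg.k * (Tg x + 1) + 1 ≤
        (cb.k + cf.k + cg.k + 1) * (Tb x + Tg x + 1)
      nlinarith [Nat.zero_le (cb.k * Tg x), Nat.zero_le (cg.k * Tb x),
        Nat.zero_le (cf.k * (Tb x + Tg x + 1))]
    · rw [hbx] at h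
      refine (RunLe.cond_true h (hf.run x)).mono ?_
      show cb.k * (Tb x + 1) + cf.k * (Tf x + 1) + 1 ≤
        (cb.k + cf.k + cg.k + 1) * (Tb x + Tf x + 1)
      nlinarith [Nat.zero_le (cb.k * Tf x), Nat.zero_le (cf.k * Tb x),
        Nat.zero_le (cg.k * (Tb x + Tf x + 1))]⟩

instance Comp.cond {b : α → Bool} {f g : α → β} {cb cf cg : Cd} {Tb Tf Tg : α → ℕ}
    [hb : Comp K b cb Tb] [hf : Comp K f cf Tf] [hg : Comp K g cg Tg] :
    Comp K (fun x => bif b x then f x else g x) (Cd.cond cb cf cg)
      (fun x => Tb x + bif b x then Tf x else Tg x) := Comp.cond' hb hf hg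

instance Comp.ite {p : α → Prop} [DecidablePred p] {f g : α → β} {cb cf cg : Cd}
    {Tb Tf Tg : α → ℕ} [hb : Comp K (fun x => decide (p x)) cb Tb] [hf : Comp K f cf Tf]
    [hg : Comp K g cg Tg] :
    Comp K (fun x => if p x then f x else g x) (Cd.cond cb cf cg)
      (fun x => Tb x + if p x then Tf x else Tg x) :=
  ((Comp.cond' hb hf hg).congr (fun x => by by_cases h : p x <;> simp [h])).mono
    (fun x => by by_cases h : p x <;> simp [h])

instance Comp.decideBool {b : α → Bool} {c : Cd} {T : α → ℕ} [h : Comp K b c T] :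
    Comp K (fun x => decide (b x = true)) c T := h.congr (fun x => by simp)

end cases

/-! ### General recursion -/

section fix

/-- `true` as a constant program. -/
def ttP : Prog := .pair .nil .nil

theorem ttP_run {K : Type} [Field K] (x : D K) : RunLe ttP x (.pair .nil .nil) 3 :=
  (RunLe.nil x).pair (RunLe.nil x)

/-- Input `(x, (ys, (res, st)))`. -/
def nextP (p3 : Prog) : Prog :=
  .cond (.seq .snd .fst)
    (.pair ttP (.pair (.seq (.seq .snd .fst) .fst)
      (.pair (.pair .fst (.pair (.seq (.seq .snd .fst) .snd) (.seq (.seq .snd .snd) .fst)))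
        (.seq (.seq .snd .snd) .snd))))
    (.pair .nil (.pair (.seq (.pair .fst (.seq (.seq .snd .snd) .fst)) p3)
      (.seq (.seq .snd .snd) .snd)))

/-- State `(flag, (x, st))` with true flag. -/
def evalP (p0 p1 p2 p3 : Prog) : Prog :=
  .cond (.seq (.seq .snd .fst) p0)
    (.pair .nil (.pair (.seq (.seq .snd .fst) p1) (.seq .snd .snd)))
    (.seq (.pair (.seq .snd .fst) (.pair (.seq (.seq .snd .fst) p2) (.pair .nil (.seq .snd .snd))))
      (nextP p3))

/-- State `(nil, (v, ((x, (ys, res)), st)))`. -/
def retP (p3 : Prog) : Prog :=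
  .seq (.pair (.seq (.seq (.seq .snd .snd) .fst) .fst)
    (.pair (.seq (.seq (.seq (.seq .snd .snd) .fst) .snd) .fst)
      (.pair (.pair (.seq .snd .fst) (.seq (.seq (.seq (.seq .snd .snd) .fst) .snd) .snd))
        (.seq (.seq .snd .snd) .snd)))) (nextP p3)

def testP : Prog := .cond .fst ttP (.seq .snd .snd)

def bodyP (p0 p1 p2 p3 : Prog) : Prog := .cond .fst (evalP p0 p1 p2 p3) (retP p3)

/-- Program for a recursive function. -/
def fixP (p0 p1 p2 p3 : Prog) : Prog :=
  .seq (.pair ttP (.pair .id .nil)) (.seq (.loop testP (bodyP p0 p1 p2 p3)) (.seq .snd .fst))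

variable {K : Type} [Field K] {α β : Type} [Enc K α] [Enc K β]

/-- The state after `nextP`. -/
def nextState (K : Type) {α β : Type} [Enc K α] [Enc K β] (join : α × List β → β) (x : α)
    (ys : List α) (res : List β) (st : D K) : D K :=
  match ys with
  | [] => .pair .nil (.pair (enc K (join (x, res))) st)
  | y :: ys' => .pair (.pair .nil .nil) (.pair (enc K y)
      (.pair (.pair (enc K x) (.pair (enc K ys') (enc K res))) st))

theorem nextP_run {join : α × List β → β} {c3 : Cd} {T3 : α × List β → ℕ}
    (x : α) (ys : List α) (res : List β) (h3 : ys = [] →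
      RunLe c3.p (enc K (x, res)) (enc K (join (x, res))) (c3.k * (T3 (x, res) + 1)))
    (st : D K) :
    RunLe (nextP c3.p) (.pair (enc K x) (.pair (enc K ys) (.pair (enc K res) st)))
      (nextState K join x ys res st)
      (35 + (if ys = [] then c3.k * (T3 (x, res) + 1) else 0)) := by
  set X : D K := .pair (enc K x) (.pair (enc K ys) (.pair (enc K res) st)) with hX
  have hys : RunLe (.seq .snd .fst) X (enc K ys) 3 := (RunLe.snd _ _).seq (RunLe.fst _ _)
  have hrs : RunLe (.seq .snd .snd) X (.pair (enc K res) st) 3 := (RunLe.snd _ _).seq (RunLe.snd _ _)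
  have hres : RunLe (.seq (.seq .snd .snd) .fst) X (enc K res) 5 := hrs.seq (RunLe.fst _ _)
  have hst : RunLe (.seq (.seq .snd .snd) .snd) X st 5 := hrs.seq (RunLe.snd _ _)
  cases ys with
  | nil =>
    have hj := ((RunLe.fst _ _).pair hres).seq (h3 rfl)
    have := RunLe.cond_false (p := (.pair ttP (.pair (.seq (.seq .snd .fst) .fst)
      (.pair (.pair .fst (.pair (.seq (.seq .snd .fst) .snd) (.seq (.seq .snd .snd) .fst)))
        (.seq (.seq .snd .snd) .snd))))) hys ((RunLe.nil X).pair (hj.pair hst))
    refine this.mono ?_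
    simp only [if_true]
    omega
  | cons y ys' =>
    have h1 : RunLe (.seq (.seq .snd .fst) .fst) X (enc K y) 5 := hys.seq (RunLe.fst _ _)
    have h2 : RunLe (.seq (.seq .snd .fst) .snd) X (enc K ys') 5 := hys.seq (RunLe.snd _ _)
    have := RunLe.cond_true (q := (.pair .nil (.pair (.seq (.pair .fst (.seq (.seq .snd .snd) .fst))
      c3.p) (.seq (.seq .snd .snd) .snd)))) hys ((ttP_run X).pair (h1.pair
        (((RunLe.fst _ _).pair (h2.pair hres)).pair hst)))
    refine this.mono ?_
    omega

theorem testP_eval (v st : D K) : RunLe testP (.pair (.pair .nil .nil) (.pair v st))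
    (.pair .nil .nil) 5 :=
  (RunLe.cond_true (RunLe.fst _ _) (ttP_run _))

theorem testP_ret (v u st : D K) : RunLe testP (.pair .nil (.pair v (.pair u st)))
    (.pair u st) 5 :=
  (RunLe.cond_false (RunLe.fst _ _) ((RunLe.snd _ _).seq (RunLe.snd _ _)))

theorem testP_end (v : D K) : RunLe testP (.pair .nil (.pair v .nil)) .nil 5 :=
  (RunLe.cond_false (RunLe.fst _ _) ((RunLe.snd _ _).seq (RunLe.snd _ _)))

/-- **General recursion.**  `f` calls itself on the list `subs x` of smaller arguments and
combines the results by `join`.  The list of subproblems has to be computed in reverse order. -/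
theorem Comp.fix' {isLeaf : α → Bool} {leaf : α → β} {subs : α → List α}
    {join : α × List β → β} {f : α → β} {c0 c1 c2 c3 : Cd} {T0 T1 T2 : α → ℕ}
    {T3 : α × List β → ℕ} {T : α → ℕ} (m : α → ℕ)
    (h0 : Comp K isLeaf c0 T0) (h1 : Comp K leaf c1 T1)
    (h2 : Comp K (fun x => (subs x).reverse) c2 T2)
    (h3 : ∀ x res, res.length = (subs x).length →
      RunLe c3.p (enc K (x, res)) (enc K (join (x, res))) (c3.k * (T3 (x, res) + 1)))
    (hleaf : ∀ x, isLeaf x = true → f x = leaf x)
    (hnode : ∀ x, isLeaf x = false → f x = join (x, (subs x).map f))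
    (hm : ∀ x, isLeaf x = false → ∀ y ∈ subs x, m y < m x)
    (hT1 : ∀ x, isLeaf x = true → T0 x + T1 x ≤ T x)
    (hT2 : ∀ x, isLeaf x = false →
      T0 x + T2 x + T3 (x, (subs x).map f) + ((subs x).map (fun y => T y + 2)).sum ≤ T x) :
    Comp K f ⟨fixP c0.p c1.p c2.p c3.p, 200 + c0.k + c1.k + c2.k + c3.k⟩ T := by
  set k := 100 + c0.k + c1.k + c2.k + c3.k with hk
  -- the main claim
  have key : ∀ n : ℕ, ∀ x : α, m x ≤ n → ∀ st : D K,
      LoopTo testP (bodyP c0.p c1.p c2.p c3.p) (.pair (.pair .nil .nil) (.pair (enc K x) st))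
        (.pair .nil (.pair (enc K (f x)) st)) (k * (T x + 1)) := by
    intro n
    induction n with
    | zero =>
      intro x hx st
      have X1 : RunLe (.seq .snd .fst)
          (.pair (.pair .nil .nil) (.pair (enc K x) st) : D K) (enc K x) 3 :=
        (RunLe.snd _ _).seq (RunLe.fst _ _)
      have X2 : RunLe (.seq .snd .snd)
          (.pair (.pair .nil .nil) (.pair (enc K x) st) : D K) st 3 :=
        (RunLe.snd _ _).seq (RunLe.snd _ _)
      cases hl : isLeaf x with
      | true =>
        have e0 := X1.seq (h0.run x)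
        rw [hl] at e0
        have e1 := X1.seq (h1.run x)
        rw [← hleaf x hl] at e1
        have e2 := RunLe.cond_true (q := (.seq (.pair (.seq .snd .fst) (.pair (.seq
          (.seq .snd .fst) c2.p) (.pair .nil (.seq .snd .snd)))) (nextP c3.p))) e0
          ((RunLe.nil _).pair (e1.pair X2))
        have e3 := RunLe.cond_true (q := retP c3.p) (RunLe.fst _ _) e2
        refine LoopTo.step (testP_eval _ _) e3 (.refl _ 0) ?_
        have := hT1 x hl
        have : c0.k * (T0 x + 1) + c1.k * (T1 x + 1) ≤ (c0.k + c1.k) * (T x + 1) := by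
          nlinarith [Nat.zero_le (c0.k * T1 x), Nat.zero_le (c1.k * T0 x),
            Nat.mul_le_mul_left c0.k this, Nat.mul_le_mul_left c1.k this]
        have h5 : k * (T x + 1) = (c0.k + c1.k) * (T x + 1) + (100 + c2.k + c3.k) * (T x + 1) := by
          rw [hk]; ring
        have h6 : 100 ≤ (100 + c2.k + c3.k) * (T x + 1) := by nlinarith [Nat.zero_le (T x)]
        omega
      | false =>
        have hs : subs x = [] := by
          by_contra hne
          obtain ⟨y, hy⟩ := List.exists_mem_of_ne_nil _ hne
          have := hm x hl y hy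
          omega
        have e0 := X1.seq (h0.run x)
        rw [hl] at e0
        have e1 := X1.seq (h2.run x)
        simp only [hs, List.reverse_nil] at e1
        have e2 := (X1.pair (e1.pair ((RunLe.nil _).pair X2))).seq
          (nextP_run x [] [] (fun _ => h3 x [] (by simp [hs])) st)
        have e3 := RunLe.cond_false (p := (.pair .nil (.pair (.seq (.seq .snd .fst) c1.p)
          (.seq .snd .snd)))) e0 e2
        have e4 := RunLe.cond_true (q := retP c3.p) (RunLe.fst _ _) e3
        have ef : f x = join (x, []) := by rw [hnode x hl, hs, List.map_nil]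
        rw [ef]
        refine LoopTo.step (testP_eval _ _) e4 (.refl _ 0) ?_
        have hh := hT2 x hl
        rw [hs] at hh
        simp only [List.map_nil, List.sum_nil, if_true] at hh ⊢
        have : c0.k * (T0 x + 1) + c2.k * (T2 x + 1) + c3.k * (T3 (x, []) + 1) ≤
            (c0.k + c2.k + c3.k) * (T x + 1) := by
          have a1 : c0.k * (T0 x + 1) ≤ c0.k * (T x + 1) := Nat.mul_le_mul_left _ (by omega)
          have a2 : c2.k * (T2 x + 1) ≤ c2.k * (T x + 1) := Nat.mul_le_mul_left _ (by omega)
          have a3 : c3.k * (T3 (x, []) + 1) ≤ c3.k * (T x + 1) := Nat.mul_le_mul_left _ (by omega)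
          nlinarith
        have h5 : k * (T x + 1) = (c0.k + c2.k + c3.k) * (T x + 1) + (100 + c1.k) * (T x + 1) := by
          rw [hk]; ring
        have h6 : 100 ≤ (100 + c1.k) * (T x + 1) := by nlinarith [Nat.zero_le (T x)]
        omega
    | succ n ih =>
      intro x hx st
      have X1 : RunLe (.seq .snd .fst)
          (.pair (.pair .nil .nil) (.pair (enc K x) st) : D K) (enc K x) 3 :=
        (RunLe.snd _ _).seq (RunLe.fst _ _)
      have X2 : RunLe (.seq .snd .snd)
          (.pair (.pair .nil .nil) (.pair (enc K x) st) : D K) st 3 :=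
        (RunLe.snd _ _).seq (RunLe.snd _ _)
      cases hl : isLeaf x with
      | true =>
        have e0 := X1.seq (h0.run x)
        rw [hl] at e0
        have e1 := X1.seq (h1.run x)
        rw [← hleaf x hl] at e1
        have e2 := RunLe.cond_true (q := (.seq (.pair (.seq .snd .fst) (.pair (.seq
          (.seq .snd .fst) c2.p) (.pair .nil (.seq .snd .snd)))) (nextP c3.p))) e0
          ((RunLe.nil _).pair (e1.pair X2))
        have e3 := RunLe.cond_true (q := retP c3.p) (RunLe.fst _ _) e2
        refine LoopTo.step (testP_eval _ _) e3 (.refl _ 0) ?_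
        have := hT1 x hl
        have : c0.k * (T0 x + 1) + c1.k * (T1 x + 1) ≤ (c0.k + c1.k) * (T x + 1) := by
          nlinarith [Nat.zero_le (c0.k * T1 x), Nat.zero_le (c1.k * T0 x),
            Nat.mul_le_mul_left c0.k this, Nat.mul_le_mul_left c1.k this]
        have h5 : k * (T x + 1) = (c0.k + c1.k) * (T x + 1) + (100 + c2.k + c3.k) * (T x + 1) := by
          rw [hk]; ring
        have h6 : 100 ≤ (100 + c2.k + c3.k) * (T x + 1) := by nlinarith [Nat.zero_le (T x)]
        omega
      | false =>
        -- the loop over the subproblems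
        have sub : ∀ (ys : List α) (res : List β), (∀ y ∈ ys, m y ≤ n) →
            ys.length + res.length = (subs x).length → ys ≠ [] →
            LoopTo testP (bodyP c0.p c1.p c2.p c3.p) (nextState K join x ys res st)
              (nextState K join x [] ((ys.map f).reverse ++ res) st)
              ((ys.map (fun y => k * (T y + 1) + 99)).sum +
                c3.k * (T3 (x, (ys.map f).reverse ++ res) + 1)) := by
          intro ys
          induction ys with
          | nil => intro res _ _ h; exact absurd rfl h
          | cons y ys' ihy =>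
            intro res hys hlen _
            rw [List.length_cons] at hlen
            have hy := ih y (hys y (List.mem_cons_self ..))
              (.pair (.pair (enc K x) (.pair (enc K ys') (enc K res))) st)
            set S : D K := .pair .nil (.pair (enc K (f y))
              (.pair (.pair (enc K x) (.pair (enc K ys') (enc K res))) st)) with hS
            have r1 : RunLe (.seq .snd .fst) S (enc K (f y)) 3 :=
              (RunLe.snd _ _).seq (RunLe.fst _ _)
            have r2 : RunLe (.seq .snd .snd) S
                (.pair (.pair (enc K x) (.pair (enc K ys') (enc K res))) st) 3 :=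
              (RunLe.snd _ _).seq (RunLe.snd _ _)
            have r3 := r2.seq (RunLe.fst _ _)
            have r4 := r3.seq (RunLe.fst _ _)
            have r5 := r3.seq (RunLe.snd _ _)
            have r6 := r5.seq (RunLe.fst _ _)
            have r7 := r5.seq (RunLe.snd _ _)
            have r8 := r2.seq (RunLe.snd _ _)
            have r9 := (r4.pair (r6.pair ((r1.pair r7).pair r8))).seq
              (nextP_run x ys' (f y :: res) (fun hnil => h3 x _ (by
                rw [List.length_cons]; rw [hnil] at hlen; simp only [List.length_nil] at hlen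
                omega)) st)
            have r10 := RunLe.cond_false (p := evalP c0.p c1.p c2.p c3.p) (RunLe.fst _ _) r9
            have hy' : LoopTo testP (bodyP c0.p c1.p c2.p c3.p)
              (nextState K join x (y :: ys') res st) S (k * (T y + 1)) := hy
            by_cases hne : ys' = []
            · subst hne
              have s1 : LoopTo testP (bodyP c0.p c1.p c2.p c3.p) S
                  (nextState K join x [] (f y :: res) st)
                  (99 + c3.k * (T3 (x, f y :: res) + 1)) := by
                refine LoopTo.step (testP_ret _ _ _) r10 (.refl _ 0) ?_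
                simp only [if_true]
                omega
              have s2 := hy'.trans s1
              simpa [add_assoc] using s2
            · have s1 := ihy (f y :: res) (fun z hz => hys z (List.mem_cons_of_mem _ hz))
                (by rw [List.length_cons]; omega) hne
              have s2 : LoopTo testP (bodyP c0.p c1.p c2.p c3.p) S _ _ :=
                LoopTo.step (testP_ret _ _ _) r10 s1 le_rfl
              have s3 := hy'.trans s2
              have el : (List.map f (y :: ys')).reverse ++ res =
                  (List.map f ys').reverse ++ (f y :: res) := by simp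
              rw [el]
              refine s3.mono ?_
              simp only [hne, if_false, List.map_cons, List.sum_cons]
              omega
        have e0 := X1.seq (h0.run x)
        rw [hl] at e0
        have e1 := X1.seq (h2.run x)
        have e2 := (X1.pair (e1.pair ((RunLe.nil _).pair X2))).seq
          (nextP_run x (subs x).reverse [] (fun hnil => h3 x _ (by
            simp [List.reverse_eq_nil_iff.1 hnil])) st)
        have e3 := RunLe.cond_false (p := (.pair .nil (.pair (.seq (.seq .snd .fst) c1.p)
          (.seq .snd .snd)))) e0 e2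
        have e4 := RunLe.cond_true (q := retP c3.p) (RunLe.fst _ _) e3
        have hh := hT2 x hl
        have esum : ((subs x).reverse.map (fun y => k * (T y + 1) + 99)).sum ≤
            k * ((subs x).map (fun y => T y + 2)).sum := by
          rw [List.map_reverse, List.sum_reverse]
          induction subs x with
          | nil => simp
          | cons y l ihl =>
            simp only [List.map_cons, List.sum_cons]
            have : k * (T y + 1) + 99 ≤ k * (T y + 2) := by
              have : 99 ≤ k := by omega
              nlinarith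
            nlinarith
        have ebound : c0.k * (T0 x + 1) + c2.k * (T2 x + 1) +
            c3.k * (T3 (x, (subs x).map f) + 1) + 100 + k * ((subs x).map (fun y => T y + 2)).sum
            ≤ k * (T x + 1) := by
          have b1 : k * (T0 x + T2 x + T3 (x, (subs x).map f) + 1) +
              k * ((subs x).map (fun y => T y + 2)).sum ≤ k * (T x + 1) := by
            rw [← Nat.mul_add]
            exact Nat.mul_le_mul_left _ (by omega)
          have b2 : c0.k * (T0 x + 1) + c2.k * (T2 x + 1) +
            c3.k * (T3 (x, (subs x).map f) + 1) + 100 ≤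
            k * (T0 x + T2 x + T3 (x, (subs x).map f) + 1) := by
            have b3 : c0.k * (T0 x + 1) ≤
                c0.k * (T0 x + T2 x + T3 (x, (subs x).map f) + 1) :=
              Nat.mul_le_mul_left _ (by omega)
            have b4 : c2.k * (T2 x + 1) ≤
                c2.k * (T0 x + T2 x + T3 (x, (subs x).map f) + 1) :=
              Nat.mul_le_mul_left _ (by omega)
            have b5 : c3.k * (T3 (x, (subs x).map f) + 1) ≤
                c3.k * (T0 x + T2 x + T3 (x, (subs x).map f) + 1) :=
              Nat.mul_le_mul_left _ (by omega)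
            have b6 : k * (T0 x + T2 x + T3 (x, (subs x).map f) + 1) =
              c0.k * (T0 x + T2 x + T3 (x, (subs x).map f) + 1) +
              c2.k * (T0 x + T2 x + T3 (x, (subs x).map f) + 1) +
              c3.k * (T0 x + T2 x + T3 (x, (subs x).map f) + 1) +
              (100 + c1.k) * (T0 x + T2 x + T3 (x, (subs x).map f) + 1) := by
              rw [hk]; ring
            have b7 : 100 ≤ (100 + c1.k) * (T0 x + T2 x + T3 (x, (subs x).map f) + 1) := by
              nlinarith [Nat.zero_le (T0 x + T2 x + T3 (x, (subs x).map f))]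
            omega
          omega
        have ef : f x = join (x, (subs x).map f) := hnode x hl
        have fin : nextState K join x [] (((subs x).reverse.map f).reverse ++ []) st =
            .pair .nil (.pair (enc K (f x)) st) := by
          rw [ef, List.append_nil, ← List.map_reverse, List.reverse_reverse]
          rfl
        by_cases hne : subs x = []
        · have en : (subs x).reverse = [] := by rw [hne]; rfl
          rw [en] at e4
          have fin' : nextState K join x [] [] st = .pair .nil (.pair (enc K (f x)) st) := by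
            rw [← fin, en]; rfl
          rw [fin'] at e4
          refine LoopTo.step (testP_eval _ _) e4 (.refl _ 0) ?_
          rw [hne] at ebound
          simp only [List.map_nil, List.sum_nil, if_true, mul_zero, add_zero] at ebound ⊢
          omega
        · have hne' : (subs x).reverse ≠ [] := by simpa using hne
          have s1 := sub (subs x).reverse [] (fun y hy => by
            have := hm x hl y (List.mem_reverse.1 hy)
            omega) (by rw [List.length_reverse]; rfl) hne'
          rw [fin] at s1
          refine LoopTo.step (testP_eval _ _) e4 s1 ?_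
          have el : (List.map f (subs x).reverse).reverse ++ [] = (subs x).map f := by
            rw [List.append_nil, ← List.map_reverse, List.reverse_reverse]
          rw [el]
          simp only [hne', if_false]
          omega
  refine ⟨fun x => ?_⟩
  have a1 : RunLe (.pair ttP (.pair .id .nil)) (enc K x)
      (.pair (.pair .nil .nil) (.pair (enc K x) .nil)) 7 :=
    (ttP_run _).pair ((RunLe.id _).pair (RunLe.nil _))
  have a2 := (key (m x) x le_rfl .nil).runLe (testP_end _)
  have a3 : RunLe (.seq .snd .fst) (.pair .nil (.pair (enc K (f x)) .nil) : D K) (enc K (f x)) 3 :=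
    (RunLe.snd _ _).seq (RunLe.fst _ _)
  refine (a1.seq (a2.seq a3)).mono ?_
  show 7 + (k * (T x + 1) + 5 + 1 + 3 + 1) + 1 ≤ (200 + c0.k + c1.k + c2.k + c3.k) * (T x + 1)
  have : (200 + c0.k + c1.k + c2.k + c3.k) * (T x + 1) = k * (T x + 1) + 100 * (T x + 1) := by
    rw [hk]; ring
  omega

end fix

/-! ### Recursion with one recursive call -/

section rec1

variable {K : Type} [Field K] {α β : Type} [Enc K α] [Enc K β]

/-- Input `(x, (r, nil))`: pass `(x, r)` to `p`. -/
def headP (p : Prog) : Prog := .seq (.pair .fst (.seq .snd .fst)) p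

def Cd.single (c : Cd) : Cd := ⟨.pair c.p .nil, c.k + 2⟩

/-- The code of `Comp.rec1`. -/
def Cd.rec1 (c0 c1 c2 c3 : Cd) : Cd :=
  ⟨fixP c0.p c1.p (Cd.single c2).p (headP c3.p),
    200 + c0.k + c1.k + (Cd.single c2).k + (c3.k + 7)⟩

/-- **Recursion with one recursive call**: `f x = leaf x` or `f x = join x (f (next x))`. -/
theorem Comp.rec1 {isLeaf : α → Bool} {leaf : α → β} {next : α → α} {join : α → β → β}
    {f : α → β} {c0 c1 c2 c3 : Cd} {T0 T1 T2 : α → ℕ} {T3 : α × β → ℕ} {T : α → ℕ}
    [h0 : Comp K isLeaf c0 T0] [h1 : Comp K leaf c1 T1] [h2 : Comp K next c2 T2]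
    [h3 : Comp K (fun z : α × β => join z.1 z.2) c3 T3] (m : α → ℕ)
    (hleaf : ∀ x, isLeaf x = true → f x = leaf x)
    (hnode : ∀ x, isLeaf x = false → f x = join x (f (next x)))
    (hm : ∀ x, isLeaf x = false → m (next x) < m x)
    (hT1 : ∀ x, isLeaf x = true → T0 x + T1 x ≤ T x)
    (hT2 : ∀ x, isLeaf x = false →
      T0 x + T2 x + T3 (x, f (next x)) + T (next x) + 2 ≤ T x) :
    Comp K f (Cd.rec1 c0 c1 c2 c3) T := by
  classical
  by_cases hα : Nonempty α
  · obtain ⟨a0⟩ := hα
    have hs : Comp K (fun x => ([next x] : List α).reverse) (Cd.single c2) T2 :=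
      ⟨fun x => ((h2.run x).pair (RunLe.nil _)).mono (by
        show c2.k * (T2 x + 1) + 1 + 1 ≤ (c2.k + 2) * (T2 x + 1)
        nlinarith [Nat.zero_le (T2 x)])⟩
    refine Comp.fix' (subs := fun x => [next x])
      (join := fun z => join z.1 (z.2.headD (f a0)))
      (T3 := fun z => T3 (z.1, z.2.headD (f a0))) (c3 := ⟨headP c3.p, c3.k + 7⟩)
      m h0 h1 hs ?_ hleaf (fun x hx => ?_) ?_ hT1 ?_
    · intro x res hres
      obtain ⟨b, rfl⟩ : ∃ b, res = [b] := by
        cases res with
        | nil => simp at hres
        | cons b l => exact ⟨b, by simpa using hres⟩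
      have e1 : RunLe (.pair .fst (.seq .snd .fst)) (enc K (x, [b])) (enc K (x, b)) 5 :=
        (RunLe.fst _ _).pair ((RunLe.snd _ _).seq (RunLe.fst _ _))
      refine (e1.seq (h3.run (x, b))).mono ?_
      show 5 + c3.k * (T3 (x, b) + 1) + 1 ≤ (c3.k + 7) * (T3 (x, b) + 1)
      nlinarith [Nat.zero_le (T3 (x, b))]
    · rw [hnode x hx]; rfl
    · intro x hx y hy
      rw [List.mem_singleton] at hy
      rw [hy]
      exact hm x hx
    · intro x hx
      have := hT2 x hx
      simp only [List.map_cons, List.map_nil, List.headD_cons, List.sum_cons, List.sum_nil]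
      omega
  · exact ⟨fun x => absurd ⟨x⟩ hα⟩

end rec1

end Pool.Agent.TreeRAM
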