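import Pool.Agent.Work.TreeRAM.Core

/-!
# Basic functions on booleans, numbers, field elements, options and lists
-/

set_option autoImplicit false

namespace Pool.Agent.TreeRAM

section

variable {K : Type} [Field K] {α β γ δ : Type} [Enc K α] [Enc K β] [Enc K γ] [Enc K δ]

/-! ### Compositional forms -/

/-- The function of one argument in a context. -/
theorem Comp.app1 {g : β → γ} {d : Cd} {Tg : β → ℕ} (hg : Comp K g d Tg) {f : α → β} {c : Cd}
    {T : α → ℕ} (h : Comp K f c T) : Comp K (fun x => g (f x)) (d.comp c)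
      (fun x => T x + Tg (f x)) := hg.comp h

/-- The function of two arguments in a context. -/
theorem Comp.app2 {g : β × γ → δ} {d : Cd} {Tg : β × γ → ℕ} (hg : Comp K g d Tg) {f : α → β}
    {f' : α → γ} {c c' : Cd} {T T' : α → ℕ} (h : Comp K f c T) (h' : Comp K f' c' T') :
    Comp K (fun x => g (f x, f' x)) (d.comp (c.pair c')) (fun x => T x + T' x + Tg (f x, f' x)) :=
  hg.comp Comp.pair

/-! ### Booleans -/

instance Comp.not {b : α → Bool} {c : Cd} {T : α → ℕ} [h : Comp K b c T] :
    Comp K (fun x => !b x) (Cd.cond c (Cd.const (PT.ofBool false)) (Cd.const (PT.ofBool true))) T :=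
  ((Comp.cond' h (Comp.boolLit false) (Comp.boolLit true)).congr
    (fun x => by cases b x <;> rfl)).mono (fun x => by cases b x <;> simp)

instance Comp.and {a b : α → Bool} {c d : Cd} {T T' : α → ℕ} [h : Comp K a c T]
    [h' : Comp K b d T'] : Comp K (fun x => a x && b x) (Cd.cond c d (Cd.const (PT.ofBool false)))
      (fun x => T x + T' x) :=
  ((Comp.cond' h h' (Comp.boolLit false)).congr (fun x => by cases a x <;> rfl)).mono
    (fun x => by cases a x <;> simp)

instance Comp.or {a b : α → Bool} {c d : Cd} {T T' : α → ℕ} [h : Comp K a c T]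
    [h' : Comp K b d T'] : Comp K (fun x => a x || b x) (Cd.cond c (Cd.const (PT.ofBool true)) d)
      (fun x => T x + T' x) :=
  ((Comp.cond' h (Comp.boolLit true) h').congr (fun x => by cases a x <;> rfl)).mono
    (fun x => by cases a x <;> simp)

instance Comp.decideNot {p : α → Prop} [DecidablePred p] {c : Cd} {T : α → ℕ}
    [h : Comp K (fun x => decide (p x)) c T] : Comp K (fun x => decide (¬ p x))
      (Cd.cond c (Cd.const (PT.ofBool false)) (Cd.const (PT.ofBool true))) T :=
  (Comp.not (h := h)).congr (fun x => by by_cases hp : p x <;> simp [hp])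

instance Comp.decideAnd {p q : α → Prop} [DecidablePred p] [DecidablePred q] {c d : Cd}
    {T T' : α → ℕ} [h : Comp K (fun x => decide (p x)) c T]
    [h' : Comp K (fun x => decide (q x)) d T'] : Comp K (fun x => decide (p x ∧ q x))
      (Cd.cond c d (Cd.const (PT.ofBool false))) (fun x => T x + T' x) :=
  (Comp.and (h := h) (h' := h')).congr (fun x => by
    by_cases hp : p x <;> by_cases hq : q x <;> simp [hp, hq])

instance Comp.decideOr {p q : α → Prop} [DecidablePred p] [DecidablePred q] {c d : Cd}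
    {T T' : α → ℕ} [h : Comp K (fun x => decide (p x)) c T]
    [h' : Comp K (fun x => decide (q x)) d T'] : Comp K (fun x => decide (p x ∨ q x))
      (Cd.cond c (Cd.const (PT.ofBool true)) d) (fun x => T x + T' x) :=
  (Comp.or (h := h) (h' := h')).congr (fun x => by
    by_cases hp : p x <;> by_cases hq : q x <;> simp [hp, hq])

/-! ### Field elements -/

def Cd.op (p : Prog) (c d : Cd) : Cd := Cd.comp ⟨p, 1⟩ (c.pair d)

instance Comp.addK {f g : α → K} {c d : Cd} {T T' : α → ℕ} [h : Comp K f c T]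
    [h' : Comp K g d T'] : Comp K (fun x => f x + g x) (Cd.op .add c d) (fun x => T x + T' x) :=
  (Comp.comp (g := fun z : K × K => z.1 + z.2) (Tg := fun _ => 0)
    ⟨fun z => ⟨1, le_rfl, .add z.1 z.2⟩⟩ (Comp.pair (h := h) (h' := h')))

instance Comp.subK {f g : α → K} {c d : Cd} {T T' : α → ℕ} [h : Comp K f c T]
    [h' : Comp K g d T'] : Comp K (fun x => f x - g x) (Cd.op .sub c d) (fun x => T x + T' x) :=
  (Comp.comp (g := fun z : K × K => z.1 - z.2) (Tg := fun _ => 0)
    ⟨fun z => ⟨1, le_rfl, .sub z.1 z.2⟩⟩ (Comp.pair (h := h) (h' := h')))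

instance Comp.mulK {f g : α → K} {c d : Cd} {T T' : α → ℕ} [h : Comp K f c T]
    [h' : Comp K g d T'] : Comp K (fun x => f x * g x) (Cd.op .mul c d) (fun x => T x + T' x) :=
  (Comp.comp (g := fun z : K × K => z.1 * z.2) (Tg := fun _ => 0)
    ⟨fun z => ⟨1, le_rfl, .mul z.1 z.2⟩⟩ (Comp.pair (h := h) (h' := h')))

instance Comp.invK {f : α → K} {c : Cd} {T : α → ℕ} [h : Comp K f c T] :
    Comp K (fun x => (f x)⁻¹) (Cd.comp ⟨.inv, 1⟩ c) T :=
  (Comp.comp (g := fun z : K => z⁻¹) (Tg := fun _ => 0) ⟨fun z => ⟨1, le_rfl, .inv z⟩⟩ h)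

instance (priority := 2500) Comp.zeroLit :
    Comp K (fun _ : α => (0 : K)) (Cd.op .sub Cd.one Cd.one) (fun _ => 0) :=
  (Comp.subK (f := fun _ : α => (1 : K)) (g := fun _ => 1)).congr (fun _ => sub_self 1)

instance Comp.negK {f : α → K} {c : Cd} {T : α → ℕ} [h : Comp K f c T] :
    Comp K (fun x => -(f x)) (Cd.op .sub (Cd.op .sub Cd.one Cd.one) c) T :=
  ((Comp.subK (f := fun _ : α => (0 : K)) (h' := h)).congr (fun _ => zero_sub _)).mono
    (fun _ => by simp)

instance Comp.divK {f g : α → K} {c d : Cd} {T T' : α → ℕ} [h : Comp K f c T]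
    [h' : Comp K g d T'] : Comp K (fun x => f x / g x) (Cd.op .mul c (Cd.comp ⟨.inv, 1⟩ d))
      (fun x => T x + T' x) :=
  (Comp.mulK (h := h) (h' := Comp.invK (h := h'))).congr (fun _ => (div_eq_mul_inv _ _).symm)

instance Comp.eqZeroK [DecidableEq K] {f : α → K} {c : Cd} {T : α → ℕ} [h : Comp K f c T] :
    Comp K (fun x => decide (f x = 0)) (Cd.comp ⟨.isZero, 1⟩ c) T :=
  (Comp.comp (g := fun z : K => decide (z = 0)) (Tg := fun _ => 0) ⟨fun z => by
    by_cases hz : z = 0
    · subst hz
      simp only [decide_true]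
      exact ⟨1, le_rfl, .isZero_true⟩
    · simp only [hz, decide_false]
      exact ⟨1, le_rfl, .isZero_false z hz⟩⟩ h)

instance Comp.eqK [DecidableEq K] {f g : α → K} {c d : Cd} {T T' : α → ℕ} [h : Comp K f c T]
    [h' : Comp K g d T'] : Comp K (fun x => decide (f x = g x))
      (Cd.comp ⟨.isZero, 1⟩ (Cd.op .sub c d)) (fun x => T x + T' x) :=
  (Comp.eqZeroK (h := Comp.subK (h := h) (h' := h'))).congr (fun x => by simp [sub_eq_zero])

/-! ### Case distinctions on lists, numbers, options -/

/-- Case distinction on a list. -/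
def lcase {β γ : Type} (l : List β) (n : γ) (c : β → List β → γ) : γ :=
  match l with
  | [] => n
  | b :: t => c b t

@[simp] theorem lcase_nil {β γ : Type} (n : γ) (c : β → List β → γ) : lcase [] n c = n := rfl
@[simp] theorem lcase_cons {β γ : Type} (b : β) (t : List β) (n : γ) (c : β → List β → γ) :
    lcase (b :: t) n c = c b t := rfl

/-- Case distinction on a number. -/
def ncase {γ : Type} (n : ℕ) (z : γ) (s : ℕ → γ) : γ :=
  match n with
  | 0 => z
  | n + 1 => s n

@[simp] theorem ncase_zero {γ : Type} (z : γ) (s : ℕ → γ) : ncase 0 z s = z := rfl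
@[simp] theorem ncase_succ {γ : Type} (n : ℕ) (z : γ) (s : ℕ → γ) : ncase (n + 1) z s = s n := rfl

/-- Case distinction on an option. -/
def ocase {β γ : Type} (o : Option β) (n : γ) (s : β → γ) : γ :=
  match o with
  | none => n
  | some b => s b

@[simp] theorem ocase_none {β γ : Type} (n : γ) (s : β → γ) : ocase none n s = n := rfl
@[simp] theorem ocase_some {β γ : Type} (b : β) (n : γ) (s : β → γ) :
    ocase (some b) n s = s b := rfl

/-- Code for a case distinction on the shape of the tree computed by `l`. -/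
def Cd.shape (l f g : Cd) : Cd := ⟨.cond l.p f.p (.seq (.pair .id l.p) g.p),
  2 * l.k + f.k + g.k + 5⟩

def Cd.lcase (l f g : Cd) : Cd := ⟨.cond l.p (.seq (.pair .id l.p) g.p) f.p,
  2 * l.k + f.k + g.k + 5⟩

instance Comp.lcase {l : α → List β} {f : α → γ} {g : α → β → List β → γ} {cl cf cg : Cd}
    {Tl Tf : α → ℕ} {Tg : α × (β × List β) → ℕ} [hl : Comp K l cl Tl] [hf : Comp K f cf Tf]
    [hg : Comp K (fun z : α × (β × List β) => g z.1 z.2.1 z.2.2) cg Tg] :
    Comp K (fun x => TreeRAM.lcase (l x) (f x) (g x)) (Cd.lcase cl cf cg)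
      (fun x => Tl x + TreeRAM.lcase (l x) (Tf x) (fun b t => Tg (x, (b, t)))) :=
  ⟨fun x => by
    have h := hl.run x
    show RunLe (.cond cl.p (.seq (.pair .id cl.p) cg.p) cf.p) _ _
      ((2 * cl.k + cf.k + cg.k + 5) * (Tl x + _ + 1))
    cases hx : l x with
    | nil =>
      rw [hx] at h
      refine (RunLe.cond_false h (hf.run x)).mono ?_
      simp only [lcase_nil]
      nlinarith [Nat.zero_le (cl.k * Tf x), Nat.zero_le (cf.k * Tl x), Nat.zero_le (cl.k * Tl x),
        Nat.zero_le (cg.k * (Tl x + Tf x + 1)), Nat.zero_le (Tl x), Nat.zero_le (Tf x)]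
    | cons b t =>
      rw [hx] at h
      have h2 := ((RunLe.id (enc K x)).pair h).seq (hg.run (x, (b, t)))
      refine (RunLe.cond_true h h2).mono ?_
      simp only [lcase_cons]
      nlinarith [Nat.zero_le (cl.k * Tg (x, (b, t))), Nat.zero_le (cg.k * Tl x),
        Nat.zero_le (cl.k * Tl x), Nat.zero_le (cf.k * (Tl x + Tg (x, (b, t)) + 1)),
        Nat.zero_le (Tl x), Nat.zero_le (Tg (x, (b, t)))]⟩

def Cd.ncase (l f g : Cd) : Cd := ⟨.cond l.p (.seq (.pair .id (.seq l.p .snd)) g.p) f.p,
  2 * l.k + f.k + g.k + 7⟩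

instance Comp.ncase {n : α → ℕ} {f : α → γ} {g : α → ℕ → γ} {cl cf cg : Cd}
    {Tl Tf : α → ℕ} {Tg : α × ℕ → ℕ} [hl : Comp K n cl Tl] [hf : Comp K f cf Tf]
    [hg : Comp K (fun z : α × ℕ => g z.1 z.2) cg Tg] :
    Comp K (fun x => TreeRAM.ncase (n x) (f x) (g x)) (Cd.ncase cl cf cg)
      (fun x => Tl x + TreeRAM.ncase (n x) (Tf x) (fun m => Tg (x, m))) :=
  ⟨fun x => by
    have h := hl.run x
    show RunLe (.cond cl.p (.seq (.pair .id (.seq cl.p .snd)) cg.p) cf.p) _ _
      ((2 * cl.k + cf.k + cg.k + 7) * (Tl x + _ + 1))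
    cases hx : n x with
    | zero =>
      rw [hx] at h
      refine (RunLe.cond_false h (hf.run x)).mono ?_
      simp only [ncase_zero]
      nlinarith [Nat.zero_le (cl.k * Tf x), Nat.zero_le (cf.k * Tl x), Nat.zero_le (cl.k * Tl x),
        Nat.zero_le (cg.k * (Tl x + Tf x + 1)), Nat.zero_le (Tl x), Nat.zero_le (Tf x)]
    | succ m =>
      rw [hx] at h
      have h1 : RunLe (.seq cl.p .snd) (enc K x) (enc K m) _ := h.seq (RunLe.snd _ _)
      have h2 := ((RunLe.id (enc K x)).pair h1).seq (hg.run (x, m))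
      refine (RunLe.cond_true h h2).mono ?_
      simp only [ncase_succ]
      nlinarith [Nat.zero_le (cl.k * Tg (x, m)), Nat.zero_le (cg.k * Tl x),
        Nat.zero_le (cl.k * Tl x), Nat.zero_le (cf.k * (Tl x + Tg (x, m) + 1)),
        Nat.zero_le (Tl x), Nat.zero_le (Tg (x, m))]⟩

def Cd.ocase (l f g : Cd) : Cd := ⟨.cond l.p (.seq (.pair .id (.seq l.p .fst)) g.p) f.p,
  2 * l.k + f.k + g.k + 7⟩

instance Comp.ocase {o : α → Option β} {f : α → γ} {g : α → β → γ} {cl cf cg : Cd}
    {Tl Tf : α → ℕ} {Tg : α × β → ℕ} [hl : Comp K o cl Tl] [hf : Comp K f cf Tf]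
    [hg : Comp K (fun z : α × β => g z.1 z.2) cg Tg] :
    Comp K (fun x => TreeRAM.ocase (o x) (f x) (g x)) (Cd.ocase cl cf cg)
      (fun x => Tl x + TreeRAM.ocase (o x) (Tf x) (fun m => Tg (x, m))) :=
  ⟨fun x => by
    have h := hl.run x
    show RunLe (.cond cl.p (.seq (.pair .id (.seq cl.p .fst)) cg.p) cf.p) _ _
      ((2 * cl.k + cf.k + cg.k + 7) * (Tl x + _ + 1))
    cases hx : o x with
    | none =>
      rw [hx] at h
      refine (RunLe.cond_false h (hf.run x)).mono ?_
      simp only [ocase_none]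
      nlinarith [Nat.zero_le (cl.k * Tf x), Nat.zero_le (cf.k * Tl x), Nat.zero_le (cl.k * Tl x),
        Nat.zero_le (cg.k * (Tl x + Tf x + 1)), Nat.zero_le (Tl x), Nat.zero_le (Tf x)]
    | some m =>
      rw [hx] at h
      have h1 : RunLe (.seq cl.p .fst) (enc K x) (enc K m) _ := h.seq (RunLe.fst _ _)
      have h2 := ((RunLe.id (enc K x)).pair h1).seq (hg.run (x, m))
      refine (RunLe.cond_true h h2).mono ?_
      simp only [ocase_some]
      nlinarith [Nat.zero_le (cl.k * Tg (x, m)), Nat.zero_le (cg.k * Tl x),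
        Nat.zero_le (cl.k * Tl x), Nat.zero_le (cf.k * (Tl x + Tg (x, m) + 1)),
        Nat.zero_le (Tl x), Nat.zero_le (Tg (x, m))]⟩

/-! ### Constructors and simple functions -/

instance Comp.cons {f : α → β} {g : α → List β} {c d : Cd} {T T' : α → ℕ} [h : Comp K f c T]
    [h' : Comp K g d T'] : Comp K (fun x => f x :: g x) (c.pair d) (fun x => T x + T' x) :=
  ⟨(Comp.pair (h := h) (h' := h')).run⟩

instance Comp.some {f : α → β} {c : Cd} {T : α → ℕ} [h : Comp K f c T] :
    Comp K (fun x => Option.some (f x)) (c.pair (Cd.const .nil)) T :=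
  ⟨((Comp.pair (h := h) (h' := Comp.unitLit (K := K) (α := α) ())).mono (T' := T)
    (fun _ => by simp)).run⟩

instance (priority := 900) Comp.succ {f : α → ℕ} {c : Cd} {T : α → ℕ} [h : Comp K f c T] :
    Comp K (fun x => f x + 1) ((Cd.const .nil).pair c) T :=
  ⟨((Comp.pair (h := Comp.unitLit (K := K) (α := α) ()) (h' := h)).mono (T' := T)
    (fun _ => by simp)).run⟩

instance Comp.pred {f : α → ℕ} {c : Cd} {T : α → ℕ} [h : Comp K f c T] :
    Comp K (fun x => f x - 1) (Cd.ncase c (Cd.const (PT.ofNat 0)) Cd.id.snd) T :=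
  ((Comp.ncase (n := f) (f := fun _ => 0) (g := fun _ m => m)).congr
    (fun x => by cases f x <;> simp)).mono (fun x => by cases f x <;> simp)

instance Comp.eqZero {f : α → ℕ} {c : Cd} {T : α → ℕ} [h : Comp K f c T] :
    Comp K (fun x => decide (f x = 0)) (Cd.ncase c (Cd.const (PT.ofBool true))
      (Cd.const (PT.ofBool false))) T :=
  ((Comp.ncase (n := f) (f := fun _ => true) (g := fun _ _ => false)).congr
    (fun x => by cases f x <;> simp)).mono (fun x => by cases f x <;> simp)

instance Comp.isEmpty {f : α → List β} {c : Cd} {T : α → ℕ} [h : Comp K f c T] :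
    Comp K (fun x => (f x).isEmpty) (Cd.lcase c (Cd.const (PT.ofBool true))
      (Cd.const (PT.ofBool false))) T :=
  ((Comp.lcase (l := f) (f := fun _ => true) (g := fun _ _ _ => false)).congr
    (fun x => by cases f x <;> simp)).mono (fun x => by cases f x <;> simp)

instance Comp.eqNil [DecidableEq β] {f : α → List β} {c : Cd} {T : α → ℕ} [h : Comp K f c T] :
    Comp K (fun x => decide (f x = [])) (Cd.lcase c (Cd.const (PT.ofBool true))
      (Cd.const (PT.ofBool false))) T :=
  (Comp.isEmpty (h := h)).congr (fun x => by cases f x <;> simp)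

instance Comp.tail {f : α → List β} {c : Cd} {T : α → ℕ} [h : Comp K f c T] :
    Comp K (fun x => (f x).tail) (Cd.lcase c (Cd.const .nil) Cd.id.snd.snd) T :=
  ((Comp.lcase (l := f) (f := fun _ => []) (g := fun _ _ t => t)).congr
    (fun x => by cases f x <;> simp)).mono (fun x => by cases f x <;> simp)

instance Comp.headD {f : α → List β} {g : α → β} {c d : Cd} {T T' : α → ℕ} [h : Comp K f c T]
    [h' : Comp K g d T'] : Comp K (fun x => (f x).headD (g x)) (Cd.lcase c d Cd.id.snd.fst)
      (fun x => T x + T' x) :=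
  ((Comp.lcase (l := f) (f := g) (g := fun _ b _ => b)).congr
    (fun x => by cases f x <;> simp)).mono (fun x => by cases f x <;> simp)

instance Comp.head? {f : α → List β} {c : Cd} {T : α → ℕ} [h : Comp K f c T] :
    Comp K (fun x => (f x).head?) (Cd.lcase c (Cd.const .nil)
      (Cd.pair Cd.id.snd.fst (Cd.const .nil))) T :=
  ((Comp.lcase (l := f) (f := fun _ => none) (g := fun _ b _ => Option.some b)).congr
    (fun x => by cases f x <;> simp)).mono (fun x => by cases f x <;> simp)

instance Comp.isSome {f : α → Option β} {c : Cd} {T : α → ℕ} [h : Comp K f c T] :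
    Comp K (fun x => (f x).isSome) (Cd.ocase c (Cd.const (PT.ofBool false))
      (Cd.const (PT.ofBool true))) T :=
  ((Comp.ocase (o := f) (f := fun _ => false) (g := fun _ _ => true)).congr
    (fun x => by cases f x <;> simp)).mono (fun x => by cases f x <;> simp)

instance Comp.getD {f : α → Option β} {g : α → β} {c d : Cd} {T T' : α → ℕ} [h : Comp K f c T]
    [h' : Comp K g d T'] : Comp K (fun x => (f x).getD (g x)) (Cd.ocase c d Cd.id.snd)
      (fun x => T x + T' x) :=
  ((Comp.ocase (o := f) (f := g) (g := fun _ b => b)).congr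
    (fun x => by cases f x <;> simp)).mono (fun x => by cases f x <;> simp)

/-! ### Eta-reduced forms (Lean reduces `fun x => foo x` to `foo`) -/

instance Comp.isEmpty_eta : Comp K (List.isEmpty : List β → Bool)
    (Cd.lcase Cd.id (Cd.const (PT.ofBool true)) (Cd.const (PT.ofBool false))) (fun _ => 0) :=
  Comp.isEmpty (f := fun x : List β => x)

instance Comp.tail_eta : Comp K (List.tail : List β → List β)
    (Cd.lcase Cd.id (Cd.const .nil) Cd.id.snd.snd) (fun _ => 0) :=
  Comp.tail (f := fun x : List β => x)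

instance Comp.head?_eta : Comp K (List.head? : List β → Option β)
    (Cd.lcase Cd.id (Cd.const .nil) (Cd.pair Cd.id.snd.fst (Cd.const .nil))) (fun _ => 0) :=
  Comp.head? (f := fun x : List β => x)

instance Comp.isSome_eta : Comp K (Option.isSome : Option β → Bool)
    (Cd.ocase Cd.id (Cd.const (PT.ofBool false)) (Cd.const (PT.ofBool true))) (fun _ => 0) :=
  Comp.isSome (f := fun x : Option β => x)

instance Comp.some_eta : Comp K (Option.some : β → Option β) (Cd.id.pair (Cd.const .nil))
    (fun _ => 0) := Comp.some (f := fun x : β => x)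

instance Comp.not_eta : Comp K (Bool.not : Bool → Bool)
    (Cd.cond Cd.id (Cd.const (PT.ofBool false)) (Cd.const (PT.ofBool true))) (fun _ => 0) :=
  Comp.not (b := fun x : Bool => x)

end

end Pool.Agent.TreeRAM
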