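import Pool.Agent.Work.TreeRAM.Model

/-!
# Encodings of data by trees
-/

set_option autoImplicit false

namespace Pool.Agent.TreeRAM

/-- Types whose elements are encoded by trees. -/
class Enc (K : Type) (α : Type) where
  /-- the tree of an object -/
  enc : α → D K

/-- The tree of an object. -/
abbrev enc (K : Type) {α : Type} [Enc K α] (a : α) : D K := Enc.enc a

instance instEncK (K : Type) : Enc K K := ⟨D.elt⟩

instance instEncD (K : Type) : Enc K (D K) := ⟨fun x => x⟩

instance instEncUnit (K : Type) : Enc K Unit := ⟨fun _ => .nil⟩

instance instEncBool (K : Type) : Enc K Bool := ⟨fun b => bif b then .pair .nil .nil else .nil⟩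

instance instEncProd (K α β : Type) [Enc K α] [Enc K β] : Enc K (α × β) :=
  ⟨fun p => .pair (enc K p.1) (enc K p.2)⟩

/-- Unary numbers. -/
def encNat (K : Type) : ℕ → D K
  | 0 => .nil
  | n + 1 => .pair .nil (encNat K n)

instance instEncNat (K : Type) : Enc K ℕ := ⟨encNat K⟩

/-- Lists. -/
def encList (K : Type) {α : Type} [Enc K α] : List α → D K
  | [] => .nil
  | a :: l => .pair (enc K a) (encList K l)

instance instEncList (K α : Type) [Enc K α] : Enc K (List α) := ⟨encList K⟩

instance instEncOption (K α : Type) [Enc K α] : Enc K (Option α) :=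
  ⟨fun o => match o with | none => .nil | some a => .pair (enc K a) .nil⟩

end Pool.Agent.TreeRAM
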