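import Mathlib

/-!
# A small first-order programming language on trees with field elements as atoms

This is the WHILE language of N. D. Jones (programs on binary trees, unit cost for every
elementary operation) with atoms in a field `K`.  A program is independent of the field.
-/

set_option autoImplicit false

namespace Pool.Agent.TreeRAM

/-- Data: finite binary trees whose leaves are `nil` or an element of `K`. -/
inductive D (K : Type) : Type
  | nil : D K
  | elt (a : K) : D K
  | pair (u v : D K) : D K

/-- Programs.  A program transforms a tree into a tree. -/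
inductive Prog : Type
  /-- return the input -/
  | id : Prog
  /-- return `nil` -/
  | nil : Prog
  /-- return the element `1` of the field -/
  | one : Prog
  /-- left subtree -/
  | fst : Prog
  /-- right subtree -/
  | snd : Prog
  /-- sum of two field elements -/
  | add : Prog
  /-- difference of two field elements -/
  | sub : Prog
  /-- product of two field elements -/
  | mul : Prog
  /-- inverse of a field element -/
  | inv : Prog
  /-- is this field element zero? (true is a pair of `nil`s, false is `nil`) -/
  | isZero : Prog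
  /-- first `p`, then `q` -/
  | seq (p q : Prog) : Prog
  /-- the pair of the results of `p` and `q` -/
  | pair (p q : Prog) : Prog
  /-- if the result of `b` is a pair do `p`, if it is `nil` do `q` -/
  | cond (b p q : Prog) : Prog
  /-- while the result of `b` is a pair do `p`, until it is `nil` -/
  | loop (b p : Prog) : Prog

/-- `Run p x y t`: the program `p` transforms `x` into `y` in exactly `t` steps.  Every
elementary operation and every composition, test and repetition costs one step. -/
inductive Run {K : Type} [Field K] : Prog → D K → D K → ℕ → Prop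
  | id (x : D K) : Run .id x x 1
  | nil (x : D K) : Run .nil x .nil 1
  | one (x : D K) : Run .one x (.elt 1) 1
  | fst (u v : D K) : Run .fst (.pair u v) u 1
  | snd (u v : D K) : Run .snd (.pair u v) v 1
  | add (a b : K) : Run .add (.pair (.elt a) (.elt b)) (.elt (a + b)) 1
  | sub (a b : K) : Run .sub (.pair (.elt a) (.elt b)) (.elt (a - b)) 1
  | mul (a b : K) : Run .mul (.pair (.elt a) (.elt b)) (.elt (a * b)) 1
  | inv (a : K) : Run .inv (.elt a) (.elt a⁻¹) 1
  | isZero_true : Run .isZero (.elt 0) (.pair .nil .nil) 1
  | isZero_false (a : K) : a ≠ 0 → Run .isZero (.elt a) .nil 1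
  | seq {p q : Prog} {x y z : D K} {s t : ℕ} :
      Run p x y s → Run q y z t → Run (.seq p q) x z (s + t + 1)
  | pair {p q : Prog} {x y z : D K} {s t : ℕ} :
      Run p x y s → Run q x z t → Run (.pair p q) x (.pair y z) (s + t + 1)
  | cond_true {b p q : Prog} {x u v y : D K} {s t : ℕ} :
      Run b x (.pair u v) s → Run p x y t → Run (.cond b p q) x y (s + t + 1)
  | cond_false {b p q : Prog} {x y : D K} {s t : ℕ} :
      Run b x .nil s → Run q x y t → Run (.cond b p q) x y (s + t + 1)
  | loop_true {b p : Prog} {x u v y z : D K} {r s t : ℕ} :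
      Run b x (.pair u v) r → Run p x y s → Run (.loop b p) y z t →
      Run (.loop b p) x z (r + s + t + 1)
  | loop_false {b p : Prog} {x : D K} {s : ℕ} :
      Run b x .nil s → Run (.loop b p) x x (s + 1)

/-- The result and the number of steps are determined by the program and the input. -/
theorem Run.det {K : Type} [Field K] {p : Prog} {x y y' : D K} {t t' : ℕ}
    (h : Run p x y t) (h' : Run p x y' t') : y = y' ∧ t = t' := by
  induction h generalizing y' t' with
  | id x => cases h'; exact ⟨rfl, rfl⟩
  | nil x => cases h'; exact ⟨rfl, rfl⟩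
  | one x => cases h'; exact ⟨rfl, rfl⟩
  | fst u v => cases h'; exact ⟨rfl, rfl⟩
  | snd u v => cases h'; exact ⟨rfl, rfl⟩
  | add a b => cases h'; exact ⟨rfl, rfl⟩
  | sub a b => cases h'; exact ⟨rfl, rfl⟩
  | mul a b => cases h'; exact ⟨rfl, rfl⟩
  | inv a => cases h'; exact ⟨rfl, rfl⟩
  | isZero_true =>
    cases h' with
    | isZero_true => exact ⟨rfl, rfl⟩
    | isZero_false a ha => exact absurd rfl ha
  | isZero_false a ha =>
    cases h' with
    | isZero_true => exact absurd rfl ha
    | isZero_false a ha => exact ⟨rfl, rfl⟩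
  | seq h1 h2 ih1 ih2 =>
    cases h' with
    | seq g1 g2 =>
      obtain ⟨rfl, rfl⟩ := ih1 g1
      obtain ⟨rfl, rfl⟩ := ih2 g2
      exact ⟨rfl, rfl⟩
  | pair h1 h2 ih1 ih2 =>
    cases h' with
    | pair g1 g2 =>
      obtain ⟨rfl, rfl⟩ := ih1 g1
      obtain ⟨rfl, rfl⟩ := ih2 g2
      exact ⟨rfl, rfl⟩
  | cond_true h1 h2 ih1 ih2 =>
    cases h' with
    | cond_true g1 g2 =>
      obtain ⟨-, rfl⟩ := ih1 g1
      obtain ⟨rfl, rfl⟩ := ih2 g2
      exact ⟨rfl, rfl⟩
    | cond_false g1 g2 => exact absurd (ih1 g1).1 (by intro h; cases h)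
  | cond_false h1 h2 ih1 ih2 =>
    cases h' with
    | cond_true g1 g2 => exact absurd (ih1 g1).1 (by intro h; cases h)
    | cond_false g1 g2 =>
      obtain ⟨-, rfl⟩ := ih1 g1
      obtain ⟨rfl, rfl⟩ := ih2 g2
      exact ⟨rfl, rfl⟩
  | loop_true h1 h2 h3 ih1 ih2 ih3 =>
    cases h' with
    | loop_true g1 g2 g3 =>
      obtain ⟨-, rfl⟩ := ih1 g1
      obtain ⟨rfl, rfl⟩ := ih2 g2
      obtain ⟨rfl, rfl⟩ := ih3 g3
      exact ⟨rfl, rfl⟩
    | loop_false g1 => exact absurd (ih1 g1).1 (by intro h; cases h)
  | loop_false h1 ih1 =>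
    cases h' with
    | loop_true g1 g2 g3 => exact absurd (ih1 g1).1 (by intro h; cases h)
    | loop_false g1 =>
      obtain ⟨-, rfl⟩ := ih1 g1
      exact ⟨rfl, rfl⟩

end Pool.Agent.TreeRAM
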